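import Pool.Agent.MP_810665_al.Prod

namespace Pool.Agent.MP_810665_al

open Representation Module Equiv Equiv.Perm

variable {α : Type} [Fintype α] [DecidableEq α]

/-- The double transposition attached to four points. -/
def dt (β : Fin 4 → α) : alternatingGroup α :=
  if h : β 0 ≠ β 1 ∧ β 2 ≠ β 3 then
    ⟨swap (β 0) (β 1) * swap (β 2) (β 3), by
      simp [mem_alternatingGroup, sign_swap h.1, sign_swap h.2]⟩
  else 1

lemma coe_dt {β : Fin 4 → α} (h : Function.Injective β) :
    (dt β : Perm α) = swap (β 0) (β 1) * swap (β 2) (β 3) := by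
  rw [dt, dif_pos ⟨h.ne (by decide), h.ne (by decide)⟩]

lemma dt_conj (g : alternatingGroup α) (β : Fin 4 → α) :
    g * dt β * g⁻¹ = dt (fun i => (g : Perm α) (β i)) := by
  unfold dt
  by_cases h : β 0 ≠ β 1 ∧ β 2 ≠ β 3
  · rw [dif_pos h, dif_pos (by simpa using h)]
    ext1
    simp only [Subgroup.coe_mul, InvMemClass.coe_inv, swap_apply_apply]
    group
  · rw [dif_neg h, dif_neg (by simpa using h)]
    simp

lemma dt_fix {β : Fin 4 → α} {x : α} (hx : ∀ i, x ≠ β i) : (dt β : Perm α) x = x := by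
  unfold dt
  split_ifs
  · simp [swap_apply_of_ne_of_ne (hx 0) (hx 1), swap_apply_of_ne_of_ne (hx 2) (hx 3)]
  · rfl

lemma dt_comm {g : alternatingGroup α} {β : Fin 4 → α} (h : ∀ i, (g : Perm α) (β i) = β i) :
    g * dt β = dt β * g := by
  have := dt_conj g β
  simp_rw [h] at this
  exact mul_inv_eq_iff_eq_mul.1 this

lemma dt_sq {β : Fin 4 → α} (h : Function.Injective β) : dt β * dt β = 1 := by
  ext x
  have h01 : β 0 ≠ β 1 := h.ne (by decide)
  have h02 : β 0 ≠ β 2 := h.ne (by decide)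
  have h03 : β 0 ≠ β 3 := h.ne (by decide)
  have h12 : β 1 ≠ β 2 := h.ne (by decide)
  have h13 : β 1 ≠ β 3 := h.ne (by decide)
  have h23 : β 2 ≠ β 3 := h.ne (by decide)
  simp only [Subgroup.coe_mul, coe_dt h, Perm.mul_apply, OneMemClass.coe_one, Perm.one_apply,
    swap_apply_def]
  grind

/-- Two rearrangements of four points. -/
def rot1 : Fin 4 → Fin 4 := ![0, 2, 3, 1]
def rot2 : Fin 4 → Fin 4 := ![0, 3, 1, 2]

lemma rot1_inj : Function.Injective rot1 := by decide
lemma rot2_inj : Function.Injective rot2 := by decide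

lemma dt_klein {β : Fin 4 → α} (h : Function.Injective β) :
    dt β * dt (β ∘ rot1) = dt (β ∘ rot2) ∧ dt (β ∘ rot1) * dt β = dt (β ∘ rot2) := by
  have h01 : β 0 ≠ β 1 := h.ne (by decide)
  have h02 : β 0 ≠ β 2 := h.ne (by decide)
  have h03 : β 0 ≠ β 3 := h.ne (by decide)
  have h12 : β 1 ≠ β 2 := h.ne (by decide)
  have h13 : β 1 ≠ β 3 := h.ne (by decide)
  have h23 : β 2 ≠ β 3 := h.ne (by decide)
  have e1 : (dt (β ∘ rot1) : Perm α) = swap (β 0) (β 2) * swap (β 3) (β 1) :=
    coe_dt (h.comp rot1_inj)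
  have e2 : (dt (β ∘ rot2) : Perm α) = swap (β 0) (β 3) * swap (β 1) (β 2) :=
    coe_dt (h.comp rot2_inj)
  constructor <;> ext x <;>
    simp only [Subgroup.coe_mul, coe_dt h, e1, e2, Perm.mul_apply, swap_apply_def] <;> grind

lemma exists_not_mem_two {ι : Type} [Fintype ι] (f : ι → α)
    (hc : Fintype.card ι + 2 ≤ Fintype.card α) :
    ∃ x y : α, x ≠ y ∧ (∀ i, f i ≠ x) ∧ ∀ i, f i ≠ y := by
  have h1 : 1 < (Finset.univ.image f)ᶜ.card := by
    rw [Finset.card_compl]
    have := Finset.card_image_le (s := Finset.univ) (f := f)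
    rw [Finset.card_univ] at this
    omega
  obtain ⟨x, hx, y, hy, hxy⟩ := Finset.one_lt_card.1 h1
  simp only [Finset.mem_compl, Finset.mem_image, Finset.mem_univ, true_and, not_exists] at hx hy
  exact ⟨x, y, hxy, hx, hy⟩

lemma exists_alt {ι : Type} [Fintype ι] {f f' : ι → α} (hf : Function.Injective f)
    (hf' : Function.Injective f') (hc : Fintype.card ι + 2 ≤ Fintype.card α) :
    ∃ g : alternatingGroup α, ∀ i, (g : Perm α) (f i) = f' i := by
  obtain ⟨σ, hσ⟩ := Equiv.Perm.exists_extending_pair f f' hf hf'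
  rcases Int.units_eq_one_or (sign σ) with h | h
  · exact ⟨⟨σ, h⟩, hσ⟩
  · obtain ⟨x, y, hxy, hx, hy⟩ := exists_not_mem_two f hc
    refine ⟨⟨σ * swap x y, by simp [mem_alternatingGroup, h, sign_swap hxy]⟩, fun i => ?_⟩
    simp [swap_apply_of_ne_of_ne (hx i) (hy i), hσ]

variable {V : Type} [AddCommGroup V] [Module ℂ V] (ρ : Representation ℂ (alternatingGroup α) V)

/-- A vector fixed by all double transpositions off `T` is fixed by the stabiliser of `T`. -/
lemma fixed_of_dt (T : Finset α) (hT : T.card + 6 ≤ Fintype.card α) (v : V)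
    (hv : ∀ β : Fin 4 → α, Function.Injective β → (∀ i, β i ∉ T) → ρ (dt β) v = v)
    (g : alternatingGroup α) (hg : ∀ t ∈ T, (g : Perm α) t = t) : ρ g v = v := by
  have hcard : Fintype.card {x : α // x ∉ T} = Fintype.card α - T.card := by
    simp [Fintype.card_subtype_compl]
  have hsimple : IsSimpleGroup (alternatingGroup {x : α // x ∉ T}) :=
    alternatingGroup.isSimpleGroup (by rw [Nat.card_eq_fintype_card]; omega)
  obtain ⟨φ, hφ0⟩ : ∃ φ : alternatingGroup {x : α // x ∉ T} →* alternatingGroup α,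
      ∀ h, (φ h).1 = ofSubtype h.1 :=
    ⟨((ofSubtype (p := fun x => x ∉ T)).comp (alternatingGroup _).subtype).codRestrict _ (by
      intro h
      rw [mem_alternatingGroup, MonoidHom.comp_apply, sign_ofSubtype]
      exact h.2), fun _ => rfl⟩
  have hφ : ∀ β : Fin 4 → {x : α // x ∉ T}, Function.Injective β →
      φ (dt β) = dt (fun i => (β i : α)) := by
    intro β hβ
    ext1
    rw [coe_dt (β := fun i => (β i : α)) (Subtype.val_injective.comp hβ), hφ0,
      coe_dt hβ, map_mul, ofSubtype_swap_eq, ofSubtype_swap_eq]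
  let N : Subgroup (alternatingGroup {x : α // x ∉ T}) :=
    { carrier := {h | ρ (φ h) v = v}
      mul_mem' := fun {a b} ha hb => by
        simp only [Set.mem_ofPred_eq, map_mul, Module.End.mul_apply] at *
        rw [hb, ha]
      one_mem' := by simp
      inv_mem' := fun {a} ha => by
        simp only [Set.mem_ofPred_eq] at *
        conv_lhs => rw [← ha, ← Module.End.mul_apply, ← map_mul, ← map_mul]
        simp }
  obtain ⟨β₀⟩ : Nonempty (Fin 4 ↪ {x : α // x ∉ T}) :=
    Function.Embedding.nonempty_of_card_le (by rw [hcard, Fintype.card_fin]; omega)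
  have hle : Subgroup.normalClosure {dt β₀} ≤ N := by
    refine (Subgroup.closure_le _).2 (fun x hx => ?_)
    obtain ⟨a, ha, hc⟩ := Group.mem_conjugatesOfSet_iff.1 hx
    obtain rfl : a = dt β₀ := ha
    obtain ⟨c, rfl⟩ := isConj_iff.1 hc
    change ρ (φ (c * dt β₀ * c⁻¹)) v = v
    have hinj : Function.Injective (fun i => c.1 (β₀ i)) :=
      c.1.injective.comp β₀.injective
    rw [dt_conj, hφ _ hinj]
    exact hv _ (Subtype.val_injective.comp hinj) (fun i => (c.1 (β₀ i)).2)
  have htop : Subgroup.normalClosure {dt β₀} = ⊤ := by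
    refine (hsimple.eq_bot_or_eq_top_of_normal _ inferInstance).resolve_left (fun h => ?_)
    have h1 : dt β₀ ∈ Subgroup.normalClosure {dt β₀} := Subgroup.subset_normalClosure rfl
    rw [h, Subgroup.mem_bot] at h1
    have h2 := congrArg (fun g : alternatingGroup _ => (g : Perm _) (β₀ 0)) h1
    simp only [coe_dt β₀.injective, Perm.mul_apply, OneMemClass.coe_one, Perm.one_apply] at h2
    rw [swap_apply_of_ne_of_ne (β₀.injective.ne (by decide)) (β₀.injective.ne (by decide)),
      swap_apply_left] at h2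
    exact absurd (β₀.injective h2) (by decide)
  have h1 : ∀ x, (g : Perm α) x ∉ T ↔ x ∉ T := by
    intro x
    refine not_congr ⟨fun h => ?_, fun h => by rwa [hg x h]⟩
    rwa [← (g : Perm α).injective (hg _ h)]
  have h2 : ∀ x, (g : Perm α) x ≠ x → x ∉ T := fun x hx hxT => hx (hg x hxT)
  let h : alternatingGroup {x : α // x ∉ T} := ⟨subtypePerm (g : Perm α) h1, by
    rw [mem_alternatingGroup, sign_subtypePerm _ h1 h2]
    exact g.2⟩
  have h3 : φ h = g := Subtype.ext ((hφ0 h).trans (ofSubtype_subtypePerm h1 h2))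
  have h4 : h ∈ N := hle (htop ▸ Subgroup.mem_top h)
  rw [← h3]
  exact h4

/-- A family of disjoint blocks of four points. -/
def Blocks {ι : Type} (B : ι → Fin 4 → α) : Prop := Function.Injective (Function.uncurry B)

omit [Fintype α] [DecidableEq α] in
lemma Blocks.inj {ι : Type} {B : ι → Fin 4 → α} (h : Blocks B) (i : ι) :
    Function.Injective (B i) := fun a b hab =>
  (Prod.ext_iff.1 (h (a₁ := (i, a)) (a₂ := (i, b)) hab)).2

omit [Fintype α] [DecidableEq α] in
lemma Blocks.ne {ι : Type} {B : ι → Fin 4 → α} (h : Blocks B) {i j : ι} (hij : i ≠ j)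
    (a b : Fin 4) : B i a ≠ B j b := fun hab =>
  hij (Prod.ext_iff.1 (h (a₁ := (i, a)) (a₂ := (j, b)) hab)).1

omit [Fintype α] [DecidableEq α] in
lemma Blocks.comp {ι κ : Type} {B : ι → Fin 4 → α} (h : Blocks B) {e : κ → ι}
    (he : Function.Injective e) : Blocks (fun k => B (e k)) := by
  rintro ⟨i, a⟩ ⟨j, b⟩ hab
  have := h (a₁ := (e i, a)) (a₂ := (e j, b)) hab
  simp only [Prod.mk.injEq] at this ⊢
  exact ⟨he this.1, this.2⟩

omit [Fintype α] [DecidableEq α] in
lemma Blocks.update {ι : Type} [DecidableEq ι] {B : ι → Fin 4 → α} (h : Blocks B) (j : ι)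
    {r : Fin 4 → Fin 4} (hr : Function.Injective r) : Blocks (Function.update B j (B j ∘ r)) := by
  have key : ∀ i a, Function.update B j (B j ∘ r) i a = B i (if i = j then r a else a) := by
    intro i a
    by_cases hi : i = j
    · subst hi
      simp
    · simp [hi]
  rintro ⟨i, a⟩ ⟨k, b⟩ hab
  simp only [Function.uncurry_apply_pair, key] at hab
  have := h (a₁ := (i, if i = j then r a else a)) (a₂ := (k, if k = j then r b else b)) hab
  simp only [Prod.mk.injEq] at this ⊢
  obtain ⟨rfl, h2⟩ := this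
  refine ⟨rfl, ?_⟩
  split_ifs at h2
  · exact hr h2
  · exact h2

omit [DecidableEq α] in
lemma exists_blocks (r : ℕ) (h : r * 4 ≤ Fintype.card α) : ∃ B : Fin r → Fin 4 → α, Blocks B := by
  obtain ⟨e⟩ : Nonempty (Fin r × Fin 4 ↪ α) :=
    Function.Embedding.nonempty_of_card_le (by simpa using h)
  exact ⟨Function.curry e, e.injective⟩

/-- A joint eigenvector of the double transpositions of a family of blocks. -/
def Pattern {ι : Type} (B : ι → Fin 4 → α) (ε : ι → ℂ) : Prop :=
  ∃ v : V, v ≠ 0 ∧ ∀ i, ρ (dt (B i)) v = ε i • v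

omit [Fintype α] [DecidableEq α] in
lemma rho_ne_zero {G : Type} [Group G] (ρ : Representation ℂ G V) (g : G) {v : V} (hv : v ≠ 0) :
    ρ g v ≠ 0 := fun h => hv (by
  have := congrArg (ρ g⁻¹) h
  simpa using this)

variable {ρ}

lemma Pattern.transport {ι : Type} [Fintype ι] {B B' : ι → Fin 4 → α} {ε : ι → ℂ}
    (h : Pattern ρ B ε) (hB : Blocks B) (hB' : Blocks B')
    (hc : Fintype.card ι * 4 + 2 ≤ Fintype.card α) : Pattern ρ B' ε := by
  obtain ⟨g, hg⟩ := exists_alt hB hB' (by simpa using hc)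
  obtain ⟨v, hv, hε⟩ := h
  refine ⟨ρ g v, rho_ne_zero ρ g hv, fun i => ?_⟩
  have h1 : B' i = fun a => (g : Perm α) (B i a) := funext (fun a => (hg (i, a)).symm)
  rw [h1, ← dt_conj, map_mul, map_mul]
  simp [hε]

lemma Pattern.flip {ι : Type} [Fintype ι] [DecidableEq ι] {B : ι → Fin 4 → α} {ε : ι → ℂ}
    (h : Pattern ρ B ε) (hB : Blocks B) (hc : Fintype.card ι * 4 + 2 ≤ Fintype.card α) {j : ι}
    (hj : ε j = -1) : Pattern ρ B (Function.update ε j 1) := by
  obtain ⟨v, hv, hε⟩ := h
  by_cases h1 : v + ρ (dt (B j ∘ rot1)) v = 0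
  · refine Pattern.transport ⟨v, hv, fun i => ?_⟩ (hB.update j rot2_inj) hB hc
    by_cases hi : i = j
    · subst hi
      simp only [Function.update_self, one_smul]
      rw [← (dt_klein (hB.inj i)).2, map_mul, Module.End.mul_apply, hε, hj, map_smul,
        eq_neg_of_add_eq_zero_right h1]
      simp
    · simp [hi, hε]
  · refine Pattern.transport ⟨_, h1, fun i => ?_⟩ (hB.update j rot1_inj) hB hc
    by_cases hi : i = j
    · subst hi
      simp only [Function.update_self, one_smul, map_add]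
      rw [← Module.End.mul_apply, ← map_mul, dt_sq ((hB.inj i).comp rot1_inj), add_comm]
      simp
    · simp only [ne_eq, hi, not_false_eq_true, Function.update_of_ne, map_add, smul_add]
      rw [← Module.End.mul_apply, ← map_mul, dt_comm (g := dt (B i)) (β := B j ∘ rot1)
        (fun a => dt_fix (fun b => hB.ne (Ne.symm hi) _ _)), map_mul, Module.End.mul_apply, hε,
        map_smul]

/-- The sign pattern of a subset. -/
noncomputable def sgn {ι : Type} [DecidableEq ι] (S : Finset ι) : ι → ℂ :=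
  fun i => if i ∈ S then -1 else 1

lemma Pattern.all_subsets {ι : Type} [Fintype ι] [DecidableEq ι] {B : ι → Fin 4 → α}
    (h : Pattern ρ B (fun _ => -1)) (hB : Blocks B)
    (hc : Fintype.card ι * 4 + 2 ≤ Fintype.card α) (S : Finset ι) : Pattern ρ B (sgn Sᶜ) := by
  induction S using Finset.induction_on with
  | empty =>
    convert h using 1
    funext i
    simp [sgn]
  | insert j S hj ih =>
    convert ih.flip hB hc (j := j) (by simp [sgn, hj]) using 1
    funext i
    by_cases hi : i = j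
    · subst hi
      simp [sgn]
    · simp [sgn, hi]

lemma card_le_finrank [FiniteDimensional ℂ V] {r : ℕ} {B : Fin r → Fin 4 → α}
    (F : Finset (Finset (Fin r))) (h : ∀ S ∈ F, Pattern ρ B (sgn S)) : F.card ≤ finrank ℂ V := by
  choose! v hv hε using h
  let T : Module.End ℂ V := ∑ i : Fin r, (2 ^ (i : ℕ) : ℂ) • ρ (dt (B i))
  let μ : F → ℂ := fun S => ∑ i : Fin r, (2 ^ (i : ℕ) : ℂ) * sgn S.1 i
  have hμ : Function.Injective μ := by
    intro S S' hS
    have h1 : ∀ S : F, μ S = ∑ i : Fin r, (2 ^ (i : ℕ) : ℂ)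
        - 2 * ((∑ i ∈ S.1.map Fin.valEmbedding, 2 ^ i : ℕ) : ℂ) := by
      intro S
      rw [Finset.sum_map]
      push_cast
      rw [← Finset.sum_ite_mem_eq S.1, Finset.mul_sum, ← Finset.sum_sub_distrib]
      refine Finset.sum_congr rfl (fun i _ => ?_)
      simp only [sgn, Fin.valEmbedding_apply]
      split_ifs <;> ring
    rw [h1, h1, sub_right_inj, mul_right_inj' two_ne_zero, Nat.cast_inj] at hS
    exact Subtype.ext (Finset.map_injective _ (Finset.geomSum_injective le_rfl hS))
  have hli := Module.End.eigenvectors_linearIndependent' T μ hμ (fun S => v S.1) (fun S =>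
    ⟨by
      rw [Module.End.mem_eigenspace_iff]
      simp only [T, μ, LinearMap.sum_apply, LinearMap.smul_apply, hε S.1 S.2, smul_smul,
        Finset.sum_smul], hv S.1 S.2⟩)
  simpa using hli.fintype_card_le_finrank

variable (ρ) in
/-- Some `w` disjoint double transpositions have a common eigenvector for `-1`. -/
def HasW (w : ℕ) : Prop := ∃ B : Fin w → Fin 4 → α, Blocks B ∧ Pattern ρ B (fun _ => -1)

lemma HasW.mono {w w' : ℕ} (h : HasW ρ w) (hw : w' ≤ w) : HasW ρ w' := by
  obtain ⟨B, hB, v, hv, hε⟩ := h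
  exact ⟨fun i => B (Fin.castLE hw i), hB.comp (Fin.castLE_injective hw), v, hv, fun i => hε _⟩

lemma HasW.le {w : ℕ} (h : HasW ρ w) : w * 4 ≤ Fintype.card α := by
  obtain ⟨B, hB, _⟩ := h
  simpa using Fintype.card_le_of_injective _ hB

lemma HasW.two_pow_le [FiniteDimensional ℂ V] {w : ℕ} (h : HasW ρ w)
    (hc : w * 4 + 2 ≤ Fintype.card α) : 2 ^ w ≤ finrank ℂ V := by
  obtain ⟨B, hB, h⟩ := h
  have := card_le_finrank (ρ := ρ) (B := B) Finset.univ (fun S _ => by
    simpa using h.all_subsets hB (by simpa using hc) Sᶜ)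
  simpa using this

lemma fixed_of_max {w : ℕ} (hw : ¬ HasW ρ (w + 1)) {B : Fin w → Fin 4 → α} (hB : Blocks B)
    {v : V} (hv : ∀ i, ρ (dt (B i)) v = (-1 : ℂ) • v) {β : Fin 4 → α}
    (hβ : Function.Injective β) (hd : ∀ i a b, B i a ≠ β b) : ρ (dt β) v = v := by
  by_contra hne
  refine hw ⟨Fin.cons β B, ?_, v - ρ (dt β) v, sub_ne_zero.2 (Ne.symm hne), fun i => ?_⟩
  · rintro ⟨i, a⟩ ⟨j, b⟩ hab
    simp only [Function.uncurry_apply_pair] at hab
    induction i using Fin.cases <;> induction j using Fin.cases <;>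
      simp only [Fin.cons_zero, Fin.cons_succ] at hab
    · rw [hβ hab]
    · exact absurd hab.symm (hd _ _ _)
    · exact absurd hab (hd _ _ _)
    · have := hB (a₁ := (_, a)) (a₂ := (_, b)) hab
      simp only [Prod.mk.injEq] at this
      rw [this.1, this.2]
  · induction i using Fin.cases
    · simp only [Fin.cons_zero, map_sub]
      rw [← Module.End.mul_apply, ← map_mul, dt_sq hβ]
      simp
    · simp only [Fin.cons_succ, map_sub]
      rw [← Module.End.mul_apply, ← map_mul, dt_comm (fun a => dt_fix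
        (fun b => (hd _ _ _).symm)), map_mul, Module.End.mul_apply, hv, map_smul, smul_sub]

lemma choose_le_finrank [FiniteDimensional ℂ V] {w r : ℕ} (h : HasW ρ w) (hw : ¬ HasW ρ (w + 1))
    (hr : r * 4 + 2 ≤ Fintype.card α) : r.choose w ≤ finrank ℂ V := by
  obtain ⟨B₀, hB₀⟩ := exists_blocks (α := α) r (by omega)
  obtain ⟨B, hB, h⟩ := h
  have := card_le_finrank (ρ := ρ) (B := B₀) (Finset.powersetCard w Finset.univ) (fun S hS => by
    have hSw : S.card = w := (Finset.mem_powersetCard.1 hS).2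
    have hwr : w ≤ r := by simpa [hSw] using S.card_le_univ
    have hB' := hB₀.comp (S.orderEmbOfFin hSw).injective
    obtain ⟨v, hv, hε⟩ := h.transport hB hB' (by simp only [Fintype.card_fin]; omega)
    refine ⟨v, hv, fun i => ?_⟩
    by_cases hi : i ∈ S
    · have : i ∈ Set.range (S.orderEmbOfFin hSw) := by simpa using hi
      obtain ⟨k, rfl⟩ := this
      simpa [sgn] using hε k
    · simp only [sgn, hi, if_false, one_smul]
      refine fixed_of_max hw hB' hε (hB₀.inj i) (fun k a b => hB₀.ne ?_ _ _)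
      rintro rfl
      exact hi (S.orderEmbOfFin_mem hSw k))
  simpa using this

lemma exists_max_weight (hV : ∃ v : V, v ≠ 0) : ∃ w, HasW ρ w ∧ ¬ HasW ρ (w + 1) := by
  classical
  have h0 : HasW ρ 0 := by
    obtain ⟨v, hv⟩ := hV
    exact ⟨fun i => i.elim0, fun a => a.1.elim0, v, hv, fun i => i.elim0⟩
  have hex : ∃ w, ¬ HasW ρ (w + 1) := ⟨Fintype.card α, fun h => by
    have := h.le
    omega⟩
  refine ⟨Nat.find hex, ?_, Nat.find_spec hex⟩
  rcases Nat.eq_zero_or_pos (Nat.find hex) with h | h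
  · rwa [h]
  · have := Nat.find_min hex (m := Nat.find hex - 1) (by omega)
    rw [not_not, Nat.sub_add_cancel h] at this
    exact this

lemma trivial_of_not_hasW (hc : 6 ≤ Fintype.card α) (h : ¬ HasW ρ 1) (g : alternatingGroup α)
    (v : V) : ρ g v = v :=
  fixed_of_dt ρ ∅ (by simpa using hc) v (fun β hβ _ =>
    fixed_of_max (w := 0) h (B := fun i => i.elim0) (fun a => a.1.elim0) (fun i => i.elim0) hβ
      (fun i => i.elim0)) g (by simp)

/-- A vector of maximal weight is fixed by the stabiliser of the blocks. -/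
lemma exists_fixed {w W : ℕ} (h : HasW ρ w) (hw : ¬ HasW ρ (w + 1)) (hwW : w ≤ W)
    {B₀ : Fin W → Fin 4 → α} (hB₀ : Blocks B₀) (hc : W * 4 + 6 ≤ Fintype.card α) :
    ∃ v : V, v ≠ 0 ∧ ∀ g : alternatingGroup α, (∀ i a, (g : Perm α) (B₀ i a) = B₀ i a) →
      ρ g v = v := by
  obtain ⟨B, hB, h⟩ := h
  have hB' := hB₀.comp (Fin.castLE_injective hwW)
  obtain ⟨v, hv, hε⟩ := h.transport hB hB' (by simp only [Fintype.card_fin]; omega)
  refine ⟨v, hv, fun g hg => fixed_of_dt ρ (Finset.univ.image (Function.uncurry B₀)) ?_ v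
    (fun β hβ hd => fixed_of_max hw hB' hε hβ (fun i a b hab => hd b ?_)) g ?_⟩
  · have := Finset.card_image_le (s := Finset.univ) (f := Function.uncurry B₀)
    simp only [Finset.card_univ, Fintype.card_prod, Fintype.card_fin] at this
    omega
  · exact Finset.mem_image.2 ⟨(_, a), Finset.mem_univ _, hab⟩
  · intro t ht
    obtain ⟨⟨i, a⟩, _, rfl⟩ := Finset.mem_image.1 ht
    exact hg i a

end Pool.Agent.MP_810665_al
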