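import Pool.Agent.MP_810665_al.Alt1

namespace Pool.Agent.MP_810665_al

open Representation Module Equiv Equiv.Perm

variable {α : Type} [Fintype α] [DecidableEq α]
variable {V : Type} [AddCommGroup V] [Module ℂ V]

omit [Fintype α] in
lemma lin_zero (A : Finset α) (hm : 4 ≤ A.card) (F : α → α → V)
    (h1 : ∀ b ∈ A, ∑ a ∈ A.erase b, F a b = 0) (h2 : ∀ a ∈ A, ∑ b ∈ A.erase a, F a b = 0)
    (h3 : ∀ a ∈ A, ∀ a' ∈ A, ∀ b ∈ A, ∀ b' ∈ A, a ≠ a' → a ≠ b → a ≠ b' → a' ≠ b → a' ≠ b' →
      b ≠ b' → F a b - F a' b - F a b' + F a' b' = 0) :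
    ∀ a ∈ A, ∀ b ∈ A, a ≠ b → F a b = 0 := by
  obtain ⟨k, hk⟩ : ∃ k, A.card = k + 4 := ⟨A.card - 4, by omega⟩
  have stepA : ∀ a ∈ A, ∀ b ∈ A, ∀ b' ∈ A, a ≠ b → a ≠ b' → b ≠ b' →
      ((k : ℂ) + 2) • (F a b - F a b') = F b b' - F b' b := by
    intro a ha b hb b' hb' hab hab' hbb'
    have hb'1 : b' ∈ A.erase b := Finset.mem_erase.2 ⟨hbb'.symm, hb'⟩
    have ha1 : a ∈ (A.erase b).erase b' := by simp [hab, hab', ha]
    have e0 : (A.erase b').erase b = (A.erase b).erase b' := Finset.erase_right_comm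
    have e1 := h1 b hb
    have e2 := h1 b' hb'
    rw [← Finset.add_sum_erase _ _ hb'1, ← Finset.add_sum_erase _ _ ha1] at e1
    rw [← Finset.add_sum_erase _ _ (Finset.mem_erase.2 ⟨hbb', hb⟩), e0,
      ← Finset.add_sum_erase _ _ ha1] at e2
    have e3 : ∑ a' ∈ ((A.erase b).erase b').erase a, (F a b - F a' b - F a b' + F a' b') = 0 :=
      Finset.sum_eq_zero (fun a' ha' => by
        simp only [Finset.mem_erase] at ha'
        exact h3 a ha a' ha'.2.2.2 b hb b' hb' ha'.1.symm hab hab' ha'.2.2.1 ha'.2.1 hbb')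
    have hc : (((A.erase b).erase b').erase a).card = k + 1 := by
      rw [Finset.card_erase_of_mem ha1, Finset.card_erase_of_mem hb'1,
        Finset.card_erase_of_mem hb]
      omega
    simp only [Finset.sum_add_distrib, Finset.sum_sub_distrib, Finset.sum_const, hc,
      ← Nat.cast_smul_eq_nsmul ℂ] at e3
    push_cast at e3
    linear_combination (norm := module) e3 + e1 - e2
  have stepB : ∀ a ∈ A, ∀ b ∈ A, a ≠ b →
      (((k : ℂ) + 2) * (k + 3)) • F a b = F a b - F b a := by
    intro a ha b hb hab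
    have hb1 : b ∈ A.erase a := Finset.mem_erase.2 ⟨hab.symm, hb⟩
    have ha1 : a ∈ A.erase b := Finset.mem_erase.2 ⟨hab, ha⟩
    have e0 : (A.erase b).erase a = (A.erase a).erase b := Finset.erase_right_comm
    have e1 := h2 a ha
    have e2 := h2 b hb
    have e3 := h1 b hb
    rw [← Finset.add_sum_erase _ _ hb1] at e1
    rw [← Finset.add_sum_erase _ _ ha1, e0] at e2 e3
    have e4 : ∑ b' ∈ (A.erase a).erase b, ((k : ℂ) + 2) • (F a b - F a b')
        = ∑ b' ∈ (A.erase a).erase b, (F b b' - F b' b) :=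
      Finset.sum_congr rfl (fun b' hb' => by
        simp only [Finset.mem_erase] at hb'
        exact stepA a ha b hb b' hb'.2.2 hab hb'.2.1.symm hb'.1.symm)
    have hc : ((A.erase a).erase b).card = k + 2 := by
      rw [Finset.card_erase_of_mem hb1, Finset.card_erase_of_mem ha]
      omega
    simp only [← Finset.smul_sum, Finset.sum_sub_distrib, Finset.sum_const, hc,
      ← Nat.cast_smul_eq_nsmul ℂ] at e4
    push_cast at e4
    linear_combination (norm := module) e4 + ((k : ℂ) + 2) • e1 + e2 - e3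
  intro a ha b hb hab
  have e1 := stepB a ha b hb hab
  have e2 := stepB b hb a ha hab.symm
  have hne : ((k : ℂ) + 2) * (k + 3) ≠ 0 := by
    have : ((k + 2) * (k + 3) : ℕ) ≠ 0 := by positivity
    exact_mod_cast this
  have hne' : ((k : ℂ) + 1) * (k + 4) ≠ 0 := by
    have : ((k + 1) * (k + 4) : ℕ) ≠ 0 := by positivity
    exact_mod_cast this
  have e3 : F a b + F b a = 0 := by
    refine (smul_eq_zero.1 (show (((k : ℂ) + 2) * (k + 3)) • (F a b + F b a) = 0 from ?_)
      ).resolve_left hne
    linear_combination (norm := module) e1 + e2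
  refine (smul_eq_zero.1 (show (((k : ℂ) + 1) * (k + 4)) • F a b = 0 from ?_)).resolve_left hne'
  linear_combination (norm := module) e1 - e3

variable (ρ : Representation ℂ (alternatingGroup α) V)

/-- `v` is fixed by the pointwise stabiliser of `T`. -/
def FixT (T : Finset α) (v : V) : Prop :=
  ∀ g : alternatingGroup α, (∀ t ∈ T, (g : Perm α) t = t) → ρ g v = v

variable {ρ}

lemma level_down (hw : ¬ HasW ρ 2) (R : Finset α) (hc : R.card + 8 ≤ Fintype.card α) {a b : α}
    (ha : a ∉ R) (hb : b ∉ R) (hab : a ≠ b)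
    (hlow : ∀ c ∉ R, ∀ v, FixT ρ (insert c R) v → v = 0) {v : V}
    (hv : FixT ρ (insert a (insert b R)) v) : v = 0 := by
  classical
  have hinj : ∀ a' ∉ R, ∀ b' ∉ R, a' ≠ b' → Function.Injective
      (Sum.elim Subtype.val (fun t : Bool => if t then a' else b') : R ⊕ Bool → α) := by
    intro a' ha' b' hb' hab'
    rintro (⟨x, hx⟩ | x) (⟨y, hy⟩ | y) h
    · simpa using h
    · cases y <;> simp at h <;> subst h <;> contradiction
    · cases x <;> simp at h <;> subst h <;> contradiction
    · cases x <;> cases y <;> simp_all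
  have hex : ∀ a' b', a' ∉ R → b' ∉ R → a' ≠ b' → ∃ g : alternatingGroup α,
      (∀ t ∈ R, (g : Perm α) t = t) ∧ (g : Perm α) a = a' ∧ (g : Perm α) b = b' := by
    intro a' b' ha' hb' hab'
    obtain ⟨g, hg⟩ := exists_alt (hinj a ha b hb hab) (hinj a' ha' b' hb' hab') (by simp; omega)
    exact ⟨g, fun t ht => hg (Sum.inl ⟨t, ht⟩), hg (Sum.inr true), hg (Sum.inr false)⟩
  choose! γ hγ using hex
  let F : α → α → V := fun a' b' => ρ (γ a' b') v
  have hmem : ∀ g : alternatingGroup α, (∀ t ∈ R, (g : Perm α) t = t) → ∀ x,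
      (g : Perm α) x ∉ R ↔ x ∉ R := by
    intro g hg x
    refine not_congr ⟨fun h => ?_, fun h => by rwa [hg x h]⟩
    rwa [← (g : Perm α).injective (hg _ h)]
  have hF : ∀ g : alternatingGroup α, (∀ t ∈ R, (g : Perm α) t = t) →
      ρ g v = F ((g : Perm α) a) ((g : Perm α) b) := by
    intro g hg
    obtain ⟨h1, h2, h3⟩ := hγ _ _ ((hmem g hg a).2 ha) ((hmem g hg b).2 hb)
      ((g : Perm α).injective.ne hab)
    have := hv (g⁻¹ * γ ((g : Perm α) a) ((g : Perm α) b)) (by
      intro t ht
      simp only [Subgroup.coe_mul, InvMemClass.coe_inv, Perm.mul_apply, Perm.inv_eq_iff_eq]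
      rcases Finset.mem_insert.1 ht with rfl | ht
      · exact h2
      rcases Finset.mem_insert.1 ht with rfl | ht
      · exact h3
      · rw [h1 t ht, hg t ht])
    conv_lhs => rw [← this, ← Module.End.mul_apply, ← map_mul, mul_inv_cancel_left]
  have hE : ∀ g : alternatingGroup α, (∀ t ∈ R, (g : Perm α) t = t) → ∀ a' ∉ R, ∀ b' ∉ R,
      a' ≠ b' → ρ g (F a' b') = F ((g : Perm α) a') ((g : Perm α) b') := by
    intro g hg a' ha' b' hb' hab'
    obtain ⟨h1, h2, h3⟩ := hγ a' b' ha' hb' hab'
    have := hF (g * γ a' b') (fun t ht => by simp [h1 t ht, hg t ht])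
    simp only [map_mul, Module.End.mul_apply, Subgroup.coe_mul, Perm.mul_apply, h2, h3] at this
    exact this
  have hperm : ∀ c ∉ R, ∀ g : alternatingGroup α, (∀ t ∈ insert c R, (g : Perm α) t = t) →
      ∀ x, x ∈ Rᶜ.erase c ↔ (g : Perm α) x ∈ Rᶜ.erase c := by
    intro c _ g hg x
    have h1 := hmem g (fun t ht => hg t (Finset.mem_insert_of_mem ht)) x
    have h2 := hg c (Finset.mem_insert_self _ _)
    simp only [Finset.mem_erase, Finset.mem_compl, h1]
    refine and_congr_left (fun _ => not_congr ⟨fun h => by rw [h, h2], fun h => ?_⟩)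
    exact (g : Perm α).injective (h.trans h2.symm)
  have hz := lin_zero Rᶜ (by rw [Finset.card_compl]; omega) F (fun c hc => ?_) (fun c hc => ?_)
    (fun a₁ h₁ a₂ h₂ b₁ h₃ b₂ h₄ n1 n2 n3 n4 n5 n6 => ?_) a (by simpa) b (by simpa) hab
  · have := hF 1 (fun _ _ => rfl)
    simpa [hz] using this
  · rw [Finset.mem_compl] at hc
    refine hlow c hc _ (fun g hg => ?_)
    rw [map_sum]
    refine Finset.sum_equiv (g : Perm α) (hperm c hc g hg) (fun x hx => ?_)
    simp only [Finset.mem_erase, Finset.mem_compl] at hx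
    rw [hE g (fun t ht => hg t (Finset.mem_insert_of_mem ht)) x hx.2 c hc hx.1,
      hg c (Finset.mem_insert_self _ _)]
  · rw [Finset.mem_compl] at hc
    refine hlow c hc _ (fun g hg => ?_)
    rw [map_sum]
    refine Finset.sum_equiv (g : Perm α) (hperm c hc g hg) (fun x hx => ?_)
    simp only [Finset.mem_erase, Finset.mem_compl] at hx
    rw [hE g (fun t ht => hg t (Finset.mem_insert_of_mem ht)) c hc x hx.2 hx.1.symm,
      hg c (Finset.mem_insert_self _ _)]
  · rw [Finset.mem_compl] at h₁ h₂ h₃ h₄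
    obtain ⟨f, hf⟩ := Function.Embedding.exists_of_card_le_finset (α := Fin 4)
      (s := (insert a₁ (insert a₂ (insert b₁ (insert b₂ R))))ᶜ) (by
        rw [Finset.card_compl, Fintype.card_fin]
        have := Finset.card_insert_le a₁ (insert a₂ (insert b₁ (insert b₂ R)))
        have := Finset.card_insert_le a₂ (insert b₁ (insert b₂ R))
        have := Finset.card_insert_le b₁ (insert b₂ R)
        have := Finset.card_insert_le b₂ R
        omega)
    have hf' : ∀ i, f i ≠ a₁ ∧ f i ≠ a₂ ∧ f i ≠ b₁ ∧ f i ≠ b₂ ∧ f i ∉ R := fun i => by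
      have := hf ⟨i, rfl⟩
      simp only [Finset.coe_compl, Finset.coe_insert, Set.mem_compl_iff, Set.mem_insert_iff,
        Finset.mem_coe, not_or] at this
      exact this
    have f01 : f 0 ≠ f 1 := f.injective.ne (by decide)
    have f02 : f 0 ≠ f 2 := f.injective.ne (by decide)
    have f03 : f 0 ≠ f 3 := f.injective.ne (by decide)
    have f12 : f 1 ≠ f 2 := f.injective.ne (by decide)
    have f13 : f 1 ≠ f 3 := f.injective.ne (by decide)
    have f23 : f 2 ≠ f 3 := f.injective.ne (by decide)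
    have g0 := hf' 0
    have g1 := hf' 1
    have g2 := hf' 2
    have g3 := hf' 3
    have hβ : Function.Injective ![a₁, a₂, f 0, f 1] := by
      intro i j
      fin_cases i <;> fin_cases j <;> simp <;> grind
    have hβ' : Function.Injective ![b₁, b₂, f 2, f 3] := by
      intro i j
      fin_cases i <;> fin_cases j <;> simp <;> grind
    have hd : ∀ i j, ![a₁, a₂, f 0, f 1] i ≠ ![b₁, b₂, f 2, f 3] j := by
      intro i j
      fin_cases i <;> fin_cases j <;> simp <;> grind
    have hR : ∀ t ∈ R, (dt ![a₁, a₂, f 0, f 1] : Perm α) t = t := fun t ht => dt_fix (by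
      intro i
      fin_cases i <;> simp <;> grind)
    have hR' : ∀ t ∈ R, (dt ![b₁, b₂, f 2, f 3] : Perm α) t = t := fun t ht => dt_fix (by
      intro i
      fin_cases i <;> simp <;> grind)
    have u1 : (dt ![a₁, a₂, f 0, f 1] : Perm α) a₁ = a₂ := by
      simp [coe_dt hβ, swap_apply_of_ne_of_ne g0.1.symm g1.1.symm]
    have u2 : (dt ![a₁, a₂, f 0, f 1] : Perm α) b₁ = b₁ := dt_fix (fun i => (hd i 0).symm)
    have u3 : (dt ![b₁, b₂, f 2, f 3] : Perm α) b₁ = b₂ := by
      simp [coe_dt hβ', swap_apply_of_ne_of_ne g2.2.2.1.symm g3.2.2.1.symm]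
    have u4 : (dt ![b₁, b₂, f 2, f 3] : Perm α) a₁ = a₁ := dt_fix (fun i => hd 0 i)
    have u5 : (dt ![b₁, b₂, f 2, f 3] : Perm α) a₂ = a₂ := dt_fix (fun i => hd 1 i)
    have key := fixed_of_max (w := 1) hw (B := fun _ => ![a₁, a₂, f 0, f 1])
      (v := F a₁ b₁ - ρ (dt ![a₁, a₂, f 0, f 1]) (F a₁ b₁)) (by
        rintro ⟨i, x⟩ ⟨j, y⟩ h
        have : x = y := hβ h
        rw [Subsingleton.elim i j, this]) (by
        intro _
        generalize F a₁ b₁ = z
        rw [map_sub, ← Module.End.mul_apply, ← map_mul, dt_sq hβ]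
        simp) hβ' (fun _ => hd)
    rw [hE _ hR a₁ h₁ b₁ h₃ n2, u1, u2, map_sub, hE _ hR' a₁ h₁ b₁ h₃ n2,
      hE _ hR' a₂ h₂ b₁ h₃ n4, u3, u4, u5] at key
    linear_combination (norm := module) -key

lemma level_one (hw : ¬ HasW ρ 2) (hc : 12 ≤ Fintype.card α) : ∀ j, j ≤ 3 → ∀ T : Finset α,
    T.card = j + 1 → (∃ v, v ≠ 0 ∧ FixT ρ T v) → ∃ c v, v ≠ 0 ∧ FixT ρ {c} v := by
  intro j
  induction j with
  | zero =>
    rintro _ T hT ⟨v, hv, h⟩
    obtain ⟨c, rfl⟩ := Finset.card_eq_one.1 hT
    exact ⟨c, v, hv, h⟩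
  | succ j ih =>
    rintro hj T hT ⟨v, hv, h⟩
    obtain ⟨a, T', ha, rfl, hT'⟩ := Finset.card_eq_succ.1 hT
    obtain ⟨b, R, hb, rfl, hR⟩ := Finset.card_eq_succ.1 hT'
    simp only [Finset.mem_insert, not_or] at ha
    by_cases hlow : ∀ c ∉ R, ∀ v, FixT ρ (insert c R) v → v = 0
    · exact absurd (level_down hw R (by omega) ha.2 hb ha.1 hlow h) hv
    · push Not at hlow
      obtain ⟨c, hc', w, hw', hw0⟩ := hlow
      exact ih (by omega) (insert c R) (by rw [Finset.card_insert_of_notMem hc', hR])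
        ⟨w, hw0, hw'⟩

lemma fix_transport (hc : 3 ≤ Fintype.card α) {c : α} {v : V} (hv : v ≠ 0) (h : FixT ρ {c} v)
    (c' : α) : ∃ v, v ≠ 0 ∧ FixT ρ {c'} v := by
  obtain ⟨g, hg⟩ := exists_alt (ι := Unit) (f := fun _ => c) (f' := fun _ => c')
    (Function.injective_of_subsingleton _) (Function.injective_of_subsingleton _) (by simpa)
  refine ⟨ρ g v, rho_ne_zero ρ g hv, fun k hk => ?_⟩
  have := h (g⁻¹ * k * g) (by simp [hg (), hk c', Equiv.symm_apply_eq])
  conv_rhs => rw [← this, ← Module.End.mul_apply, ← map_mul]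
  rw [← Module.End.mul_apply, ← map_mul]
  congr 2
  group

lemma exists_fix_of_weight_one (h1 : HasW ρ 1) (hw : ¬ HasW ρ 2) (hc : 12 ≤ Fintype.card α)
    (c : α) : ∃ v, v ≠ 0 ∧ FixT ρ {c} v := by
  obtain ⟨B₀, hB₀⟩ := exists_blocks (α := α) 1 (by omega)
  obtain ⟨v, hv, h⟩ := exists_fixed h1 hw le_rfl hB₀ (by omega)
  obtain ⟨c', v', hv', h'⟩ := level_one hw hc 3 le_rfl (Finset.univ.image (B₀ 0))
    (by rw [Finset.card_image_of_injective _ (hB₀.inj 0)]; simp) ⟨v, hv, fun g hg => h g (by
      intro i a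
      rw [Subsingleton.elim i 0]
      exact hg _ (Finset.mem_image_of_mem _ (Finset.mem_univ a)))⟩
  exact fix_transport (by omega) hv' h' c

variable (ρ) in
/-- Sum over the stabiliser of a point. -/
noncomputable def avg (c : α) : V →ₗ[ℂ] V :=
  ∑ k ∈ Finset.univ.filter (fun k : alternatingGroup α => (k : Perm α) c = c), ρ k

lemma avg_left (c : α) (w : V) : FixT ρ {c} (avg ρ c w) := by
  intro g hg
  have hg' : (g : Perm α) c = c := hg c (by simp)
  simp only [avg, LinearMap.sum_apply, map_sum]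
  refine Finset.sum_equiv (Equiv.mulLeft g) (fun k => ?_) (fun k _ => by simp)
  simp only [Finset.mem_filter, Finset.mem_univ, true_and, Equiv.coe_mulLeft, Subgroup.coe_mul,
    Perm.mul_apply]
  exact ⟨fun h => by rw [h, hg'], fun h => (g : Perm α).injective (h.trans hg'.symm)⟩

lemma avg_right (c : α) (w : V) (g : alternatingGroup α) (hg : (g : Perm α) c = c) :
    avg ρ c (ρ g w) = avg ρ c w := by
  simp only [avg, LinearMap.sum_apply]
  refine Finset.sum_equiv (Equiv.mulRight g) (fun k => ?_) (fun k _ => by simp)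
  simp [hg]

lemma stab_card_ne (c : α) :
    ((Finset.univ.filter (fun k : alternatingGroup α => (k : Perm α) c = c)).card : ℂ) ≠ 0 := by
  have : 0 < (Finset.univ.filter (fun k : alternatingGroup α => (k : Perm α) c = c)).card :=
    Finset.card_pos.2 ⟨1, by simp⟩
  exact_mod_cast this.ne'

lemma exists_stab (hc : 4 ≤ Fintype.card α) {c x y : α} (hx : x ≠ c) (hy : y ≠ c) :
    ∃ g : alternatingGroup α, (g : Perm α) c = c ∧ (g : Perm α) x = y := by
  have hinj : ∀ x, x ≠ c → Function.Injective (fun t : Bool => if t then c else x) := by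
    intro x hx s t
    cases s <;> cases t <;> simp [hx, hx.symm]
  obtain ⟨g, hg⟩ := exists_alt (hinj x hx) (hinj y hy) (by simpa)
  exact ⟨g, hg true, hg false⟩

lemma coeff_of_fix (hc : 4 ≤ Fintype.card α) {c : α} {v : V} (hv : v ≠ 0) (h : FixT ρ {c} v) :
    ∃ (v : V) (l : V →ₗ[ℂ] ℂ), l v ≠ 0 ∧ ∀ g k : alternatingGroup α,
      decide ((g : Perm α) c = c) = decide ((k : Perm α) c = c) → l (ρ g v) = l (ρ k v) := by
  obtain ⟨l, hl⟩ := Module.Projective.exists_dual_ne_zero ℂ hv
  refine ⟨v, l ∘ₗ avg ρ c, ?_, fun g k hgk => ?_⟩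
  · have : avg ρ c v = ((Finset.univ.filter
        (fun k : alternatingGroup α => (k : Perm α) c = c)).card : ℂ) • v := by
      simp only [avg, LinearMap.sum_apply]
      rw [Finset.sum_congr rfl (g := fun _ => v) (fun k hk => h k (by simpa using hk))]
      simp [Nat.cast_smul_eq_nsmul]
    rw [LinearMap.comp_apply, this, map_smul]
    exact mul_ne_zero (stab_card_ne c) hl
  · rw [decide_eq_decide] at hgk
    simp only [LinearMap.comp_apply]
    by_cases hg : (g : Perm α) c = c
    · rw [h g (by simpa using hg), h k (by simpa using hgk.1 hg)]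
    · obtain ⟨s, hs1, hs2⟩ := exists_stab hc hg (fun h => hg (hgk.2 h))
      have h1 := h (k⁻¹ * s * g) (by simp [hs2])
      rw [← avg_right c _ s hs1]
      conv_rhs => rw [← h1, ← Module.End.mul_apply (ρ k), ← map_mul]
      rw [← Module.End.mul_apply (ρ s), ← map_mul]
      congr 4
      group

variable (α) in
/-- The permutation representation. -/
noncomputable def permRep : Representation ℂ (alternatingGroup α) (α → ℂ) where
  toFun g := LinearMap.funLeft ℂ ℂ ((g : Perm α)⁻¹ : Perm α)
  map_one' := by ext; simp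
  map_mul' g h := by ext; simp [LinearMap.funLeft_apply]

lemma permRep_apply (g : alternatingGroup α) (f : α → ℂ) (x : α) :
    permRep α g f x = f ((g : Perm α)⁻¹ x) := rfl

variable (α) in
/-- The sum of the coordinates. -/
noncomputable def sumMap : (α → ℂ) →ₗ[ℂ] ℂ := ∑ x, LinearMap.proj x

omit [DecidableEq α] in
lemma sumMap_apply (f : α → ℂ) : sumMap α f = ∑ x, f x := by simp [sumMap]

variable (α) in
/-- The standard representation. -/
noncomputable def stdSub : Subrepresentation (permRep α) :=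
  ⟨LinearMap.ker (sumMap α), fun g f hf => by
    simp only [LinearMap.mem_ker, sumMap_apply, permRep_apply] at hf ⊢
    rw [← hf]
    exact Equiv.sum_comp ((g : Perm α)⁻¹) f⟩

/-- A spanning family of the standard representation. -/
noncomputable def stdVec (a : α) : (stdSub α).toSubmodule :=
  ⟨fun x => (if x = a then (Fintype.card α : ℂ) else 0) - 1, by
    change sumMap α _ = 0
    simp [sumMap_apply]⟩

lemma std_apply (g : alternatingGroup α) (a : α) :
    (stdSub α).toRepresentation g (stdVec a) = stdVec ((g : Perm α) a) := by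
  ext x
  change (if (g : Perm α)⁻¹ x = a then (Fintype.card α : ℂ) else 0) - 1
    = (if x = (g : Perm α) a then (Fintype.card α : ℂ) else 0) - 1
  simp only [Perm.inv_eq_iff_eq]

lemma stdVec_ne (hc : 2 ≤ Fintype.card α) (a : α) : stdVec a ≠ 0 := by
  intro h
  obtain ⟨b, hb⟩ := Fintype.exists_ne_of_one_lt_card hc a
  have := congrArg (fun f : (stdSub α).toSubmodule => f.1 b) h
  simp [stdVec, hb] at this

lemma std_irreducible (hc : 4 ≤ Fintype.card α) : (stdSub α).toRepresentation.IsIrreducible := by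
  obtain ⟨a₀⟩ : Nonempty α := Fintype.card_pos_iff.1 (by omega)
  have hn : (Fintype.card α : ℂ) ≠ 0 := by
    have : Fintype.card α ≠ 0 := by omega
    exact_mod_cast this
  rw [irreducible_iff]
  refine ⟨⟨_, stdVec_ne (by omega) a₀⟩, fun S hS => ?_⟩
  by_cases h0 : S = ⊥
  · exact Or.inl h0
  right
  obtain ⟨f, hf, hf0⟩ := Submodule.exists_mem_ne_zero_of_ne_bot h0
  obtain ⟨a, ha⟩ : ∃ a, f.1 a ≠ 0 := by
    by_contra h
    push Not at h
    exact hf0 (Subtype.ext (funext h))
  let f' := avg (stdSub α).toRepresentation a f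
  have h1 : f' ∈ S := by
    simp only [f', avg, LinearMap.sum_apply]
    exact S.sum_mem (fun k _ => hS k f hf)
  have h2 : f'.1 a ≠ 0 := by
    have : f'.1 a = ((Finset.univ.filter
        (fun k : alternatingGroup α => (k : Perm α) a = a)).card : ℂ) * f.1 a := by
      simp only [f', avg, LinearMap.sum_apply, AddSubmonoidClass.coe_finsetSum, Finset.sum_apply]
      rw [Finset.sum_congr rfl (g := fun _ => f.1 a)]
      · simp
      · intro k hk
        change f.1 ((k : Perm α)⁻¹ a) = _
        rw [Perm.inv_eq_iff_eq.2 (Finset.mem_filter.1 hk).2.symm]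
    rw [this]
    exact mul_ne_zero (stab_card_ne a) ha
  obtain ⟨b, hb⟩ := Fintype.exists_ne_of_one_lt_card (by omega) a
  have h3 : ∀ x, x ≠ a → f'.1 x = f'.1 b := by
    intro x hx
    obtain ⟨s, hs1, hs2⟩ := exists_stab hc hx hb
    have := congrArg (fun f : (stdSub α).toSubmodule => f.1 b) 
      (avg_left (ρ := (stdSub α).toRepresentation) a f s (by simpa))
    change f'.1 ((s : Perm α)⁻¹ b) = f'.1 b at this
    rwa [Perm.inv_eq_iff_eq.2 hs2.symm] at this
  have h4 : f'.1 a + (Fintype.card α - 1) * f'.1 b = 0 := by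
    have h5 : sumMap α f'.1 = 0 := f'.2
    rw [sumMap_apply, ← Finset.add_sum_erase _ _ (Finset.mem_univ a),
      Finset.sum_congr rfl (g := fun _ => f'.1 b)
        (fun x hx => h3 x (Finset.ne_of_mem_erase hx))] at h5
    simp only [Finset.sum_const, Finset.card_erase_of_mem (Finset.mem_univ a), Finset.card_univ,
      nsmul_eq_mul] at h5
    rwa [Nat.cast_sub (by omega), Nat.cast_one] at h5
  have h5 : f'.1 b ≠ 0 := fun h => h2 (by rwa [h, mul_zero, add_zero] at h4)
  have h6 : f' = (-f'.1 b) • stdVec a := by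
    ext x
    change f'.1 x = -f'.1 b * ((if x = a then (Fintype.card α : ℂ) else 0) - 1)
    split_ifs with hx
    · rw [hx]
      linear_combination h4
    · rw [h3 x hx]
      ring
  have h7 : stdVec a ∈ S := by
    rw [h6] at h1
    exact (S.smul_mem_iff (neg_ne_zero.2 h5)).1 h1
  have h8 : ∀ c, stdVec c ∈ S := by
    intro c
    obtain ⟨g, hg⟩ := exists_alt (ι := Unit) (f := fun _ => a) (f' := fun _ => c)
      (Function.injective_of_subsingleton _) (Function.injective_of_subsingleton _)
      (by simp; omega)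
    rw [← hg (), ← std_apply]
    exact hS g _ h7
  rw [eq_top_iff]
  intro h _
  have h9 : h = ∑ c, (h.1 c / Fintype.card α) • stdVec c := by
    ext x
    have h10 : sumMap α h.1 = 0 := h.2
    rw [sumMap_apply] at h10
    simp only [AddSubmonoidClass.coe_finsetSum, SetLike.val_smul, Finset.sum_apply, Pi.smul_apply,
      stdVec, smul_eq_mul, mul_sub, Finset.sum_sub_distrib, mul_ite, mul_zero, mul_one,
      Finset.sum_ite_eq, Finset.mem_univ, if_true, ← Finset.sum_div, h10]
    field_simp
    simp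
  rw [h9]
  exact S.sum_mem (fun c _ => S.smul_mem _ (h8 c))

lemma std_finrank (hc : 1 ≤ Fintype.card α) :
    finrank ℂ (stdSub α).toSubmodule + 1 = Fintype.card α := by
  have h1 := LinearMap.finrank_range_add_finrank_ker (sumMap α)
  obtain ⟨a⟩ : Nonempty α := Fintype.card_pos_iff.1 (by omega)
  have h2 : LinearMap.range (sumMap α) = ⊤ := by
    rw [LinearMap.range_eq_top]
    intro z
    exact ⟨Pi.single a z, by simp [sumMap_apply]⟩
  rw [h2] at h1
  simp only [finrank_top, finrank_self, finrank_fintype_fun_eq_card] at h1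
  change finrank ℂ (LinearMap.ker (sumMap α)) + 1 = _
  omega

/-- Irreducible representations of weight at most one. -/
lemma weight_le_one (hc : 12 ≤ Fintype.card α) [FiniteDimensional ℂ V] (hρ : ρ.IsIrreducible)
    (hw : ¬ HasW ρ 2) :
    ρ.character = (fun _ => 1) ∨ ρ.character = (stdSub α).toRepresentation.character := by
  classical
  by_cases h1 : HasW ρ 1
  swap
  · exact Or.inl (char_of_trivial hρ (trivial_of_not_hasW (by omega) h1))
  obtain ⟨c⟩ : Nonempty α := Fintype.card_pos_iff.1 (by omega)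
  obtain ⟨v, hv, hfix⟩ := exists_fix_of_weight_one h1 hw hc c
  by_contra hne
  push Not at hne
  have hne' : (fun _ => 1) ≠ (stdSub α).toRepresentation.character := by
    intro h
    have h2 := congrFun h 1
    rw [char_one] at h2
    have h3 : finrank ℂ (stdSub α).toSubmodule = 1 := by exact_mod_cast h2.symm
    have := std_finrank (α := α) (by omega)
    omega
  have := card_le_of_coeff {ρ.character, fun _ => 1, (stdSub α).toRepresentation.character}
    (fun g : alternatingGroup α => decide ((g : Perm α) c = c)) (by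
      intro χ hχ
      simp only [Finset.mem_insert, Finset.mem_singleton] at hχ
      rcases hχ with rfl | rfl | rfl
      · exact ⟨V, _, _, inferInstance, ρ, hρ, rfl, coeff_of_fix (by omega) hv hfix⟩
      · refine ⟨ℂ, _, _, inferInstance, Representation.trivial ℂ _ ℂ, ?_, ?_,
          1, LinearMap.id, one_ne_zero, fun _ _ _ => rfl⟩
        · rw [irreducible_iff]
          exact ⟨⟨1, one_ne_zero⟩, fun S _ => Ideal.eq_bot_or_top S⟩
        · ext g
          simp [character]
      · refine ⟨_, _, _, inferInstance, _, std_irreducible (by omega), rfl,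
          coeff_of_fix (by omega) (stdVec_ne (by omega) c) (fun g hg => ?_)⟩
        rw [std_apply, hg c (by simp)])
  rw [Finset.card_eq_three.2 ⟨_, _, _, hne.1, hne.2, hne', rfl⟩] at this
  simp at this

end Pool.Agent.MP_810665_al
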