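import Pool.Agent.MP_810665_al.Alt2
import Pool.Agent.MP_810665_al.Prod

namespace Pool.Agent.MP_810665_al

open Representation Module Equiv Equiv.Perm

lemma pow_le_choose (a w : ℕ) : a ^ w ≤ (a * w).choose w := by
  induction w with
  | zero => simp
  | succ w ih =>
    rw [mul_add, mul_one, Nat.add_choose_eq, pow_succ]
    refine le_trans ?_ (Finset.single_le_sum
      (f := fun ij : ℕ × ℕ => (a * w).choose ij.1 * a.choose ij.2) (fun _ _ => Nat.zero_le _)
      (a := (w, 1)) (by simp))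
    simpa using Nat.mul_le_mul_right a ih

lemma choose_mono_half {r i j : ℕ} (hij : i ≤ j) (hj : j ≤ r / 2) : r.choose i ≤ r.choose j := by
  induction j, hij using Nat.le_induction with
  | base => exact le_rfl
  | succ j _ ih => exact (ih (by omega)).trans (Nat.choose_le_succ_of_lt_half_left (by omega))

lemma sq_le_two_pow {t : ℕ} (ht : 6 ≤ t) : (t + 1) ^ 2 ≤ 2 ^ t := by
  induction t, ht using Nat.le_induction with
  | base => norm_num
  | succ t ht ih =>
    rw [pow_succ 2 t]
    nlinarith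

lemma le_two_pow_half {r : ℕ} (hr : 12 ≤ r) : r ≤ 2 ^ (r / 2) := by
  have h1 := sq_le_two_pow (t := r / 2) (by omega)
  have h2 : r ≤ 2 * (r / 2) + 1 := by omega
  nlinarith

lemma exists_pairs (n : ℕ) (c : ℕ → ℕ) : ∀ (d : ℕ) (S : Finset ℕ), S.card ≤ d →
    (∀ a ∈ S, a ≤ n ∧ c a ≤ n) → ∃ e : Fin d → Fin (n + 1) × Fin (n + 1),
      ∑ i, ((e i).1 : ℕ) • ({((e i).2 : ℕ)} : Multiset ℕ) = ∑ a ∈ S, c a • {a} := by
  intro d
  induction d with
  | zero =>
    intro S hS _
    obtain rfl : S = ∅ := by simpa using hS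
    exact ⟨fun i => i.elim0, by simp⟩
  | succ d ih =>
    intro S hS h
    rcases S.eq_empty_or_nonempty with rfl | ⟨a, ha⟩
    · exact ⟨fun _ => (0, 0), by simp⟩
    · obtain ⟨e, he⟩ := ih (S.erase a) (by rw [Finset.card_erase_of_mem ha]; omega)
        (fun b hb => h b (Finset.mem_of_mem_erase hb))
      refine ⟨Fin.cons (⟨c a, Nat.lt_succ_of_le (h a ha).2⟩, ⟨a, Nat.lt_succ_of_le (h a ha).1⟩) e,
        ?_⟩
      rw [Fin.sum_univ_succ, ← Finset.add_sum_erase _ _ ha, ← he]
      rfl

lemma card_partition_le {n d : ℕ} (hd : n < (d + 1) ^ 2) :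
    Fintype.card n.Partition ≤ ((n + 1) ^ 2) ^ (2 * d) := by
  have key : ∀ p : n.Partition, ∃ e : Fin (2 * d) → Fin (n + 1) × Fin (n + 1),
      ∑ i, ((e i).1 : ℕ) • ({((e i).2 : ℕ)} : Multiset ℕ) = p.parts := by
    intro p
    have hsum : ∑ a ∈ p.parts.toFinset, p.parts.count a * a = n := by
      refine Eq.trans ?_ p.parts_sum
      rw [Finset.sum_multiset_count]
      rfl
    rw [← Multiset.toFinset_sum_count_nsmul_eq p.parts]
    refine exists_pairs n _ _ _ ?_ (fun a ha => ?_)
    · have h1 : p.parts.toFinset ⊆ Finset.Icc 1 d ∪ p.parts.toFinset.filter (d < ·) := by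
        intro a ha
        have := p.parts_pos (Multiset.mem_toFinset.1 ha)
        simp only [Finset.mem_union, Finset.mem_Icc, Finset.mem_filter, ha, true_and]
        omega
      have h2 : (p.parts.toFinset.filter (d < ·)).card * (d + 1) ≤ n := by
        refine le_trans ?_ hsum.le
        rw [← smul_eq_mul, ← Finset.sum_const]
        refine le_trans (Finset.sum_le_sum (fun a ha => ?_))
          (Finset.sum_le_sum_of_subset (Finset.filter_subset _ _))
        rw [Finset.mem_filter, Multiset.mem_toFinset] at ha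
        have := Multiset.one_le_count_iff_mem.2 ha.1
        nlinarith [ha.2]
      have h3 := (Finset.card_le_card h1).trans (Finset.card_union_le _ _)
      have h4 : (p.parts.toFinset.filter (d < ·)).card < d + 1 := by nlinarith
      simp only [Nat.card_Icc] at h3
      omega
    · have h1 := Finset.single_le_sum (f := fun a => p.parts.count a * a)
        (fun _ _ => Nat.zero_le _) ha
      have h2 := p.parts_pos (Multiset.mem_toFinset.1 ha)
      have h3 := Multiset.one_le_count_iff_mem.2 (Multiset.mem_toFinset.1 ha)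
      rw [hsum] at h1
      constructor <;> nlinarith
  choose e he using key
  have := Fintype.card_le_of_injective e (fun p q h => by
    ext1
    rw [← he p, ← he q, h])
  simpa [sq] using this

variable {α : Type} [Fintype α] [DecidableEq α]

lemma card_irr_le (s : Finset (alternatingGroup α → ℂ)) (hs : ↑s ⊆ IrrChar (alternatingGroup α)) :
    s.card ≤ Fintype.card (Fintype.card α).Partition * 2 := by
  classical
  let q : alternatingGroup α → (Fintype.card α).Partition := fun g => (g : Perm α).partition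
  let r := Function.invFun q
  have hr : ∀ g, IsConj (r (q g) : Perm α) g := fun g =>
    partition_eq_of_isConj.2 (Function.invFun_eq (f := q) ⟨g, rfl⟩)
  have := card_le_of_factor s hs (fun g => (q g, decide (IsConj (r (q g)) g))) (by
    intro χ hχ g h hgh
    simp only [Prod.mk.injEq, decide_eq_decide] at hgh
    obtain ⟨h1, h2⟩ := hgh
    have hc : IsConj g h := by
      by_cases h3 : IsConj (r (q g)) g
      · exact h3.symm.trans (h1 ▸ h2.1 h3)
      have h4 := mt h2.2 h3
      obtain ⟨σ, hσ⟩ := isConj_iff.1 (hr g)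
      obtain ⟨τ, hτ⟩ := isConj_iff.1 (hr h)
      have hσ' : sign σ = -1 := (Int.units_eq_one_or _).resolve_left (fun h =>
        h3 (isConj_iff.2 ⟨⟨σ, mem_alternatingGroup.2 h⟩, Subtype.ext hσ⟩))
      have hτ' : sign τ = -1 := (Int.units_eq_one_or _).resolve_left (fun h =>
        h4 (isConj_iff.2 ⟨⟨τ, mem_alternatingGroup.2 h⟩, Subtype.ext hτ⟩))
      refine isConj_iff.2 ⟨⟨τ * σ⁻¹, by simp [mem_alternatingGroup, hσ', hτ']⟩, Subtype.ext ?_⟩
      change τ * σ⁻¹ * g * (τ * σ⁻¹)⁻¹ = h
      rw [← hσ, ← hτ, h1]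
      group
    obtain ⟨c, rfl⟩ := isConj_iff.1 hc
    exact (irr_conj (hs hχ) g c).symm)
  simpa using this

section
variable {V : Type} [AddCommGroup V] [Module ℂ V] [FiniteDimensional ℂ V]
  {ρ : Representation ℂ (alternatingGroup α) V}

lemma dim_lower {w r : ℕ} (h : HasW ρ w) (hr : r * 4 + 2 ≤ Fintype.card α) :
    r.choose w ≤ finrank ℂ V ∨ 2 ^ (r / 2) ≤ finrank ℂ V := by
  obtain ⟨w', h1, h2⟩ := exists_max_weight (ρ := ρ) (by
    obtain ⟨_, _, v, hv, _⟩ := h
    exact ⟨v, hv⟩)
  have h3 : w ≤ w' := by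
    by_contra h3
    exact h2 (h.mono (by omega))
  by_cases h4 : w' ≤ r / 2
  · exact Or.inl ((choose_mono_half h3 h4).trans (choose_le_finrank h1 h2 hr))
  · exact Or.inr ((h1.mono (by omega)).two_pow_le (by omega))

lemma trivial_of_small (hc : 50 ≤ Fintype.card α) (h : finrank ℂ V * 4 + 6 ≤ Fintype.card α)
    (g : alternatingGroup α) (v : V) : ρ g v = v := by
  refine trivial_of_not_hasW (by omega) (fun h1 => ?_) g v
  have h2 := le_two_pow_half (r := (Fintype.card α - 2) / 4) (by omega)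
  rcases dim_lower h1 (r := (Fintype.card α - 2) / 4) (by omega) with h3 | h3
  · rw [Nat.choose_one_right] at h3
    omega
  · omega

lemma big_of_weight_two (hc : 50 ≤ Fintype.card α) (h : HasW ρ 2) :
    (Fintype.card α - 1) ^ 2 ≤ 64 * finrank ℂ V := by
  obtain ⟨r, hr, hr'⟩ : ∃ r, r * 4 + 2 ≤ Fintype.card α ∧ Fintype.card α - 1 ≤ 4 * (r + 1) :=
    ⟨(Fintype.card α - 2) / 4, by omega, by omega⟩
  refine (Nat.pow_le_pow_left hr' 2).trans ?_
  have h0 : 12 ≤ r := by omega
  rcases dim_lower h hr with h3 | h3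
  · obtain ⟨t, rfl⟩ : ∃ t, r = t + 1 := ⟨r - 1, by omega⟩
    have h5 := Nat.add_one_mul_choose_eq t 1
    simp only [Nat.choose_one_right, Nat.reduceAdd] at h5
    nlinarith
  · have h1 := sq_le_two_pow (t := r / 2) (by omega)
    have h2 : 4 * (r + 1) ≤ 8 * (r / 2 + 1) := by omega
    have h4 := Nat.pow_le_pow_left h2 2
    nlinarith

lemma pow_le_dim {w m r : ℕ} (h : HasW ρ w) (hr : r * 4 + 2 ≤ Fintype.card α) (hm : m * m ≤ r)
    (hm' : 12 ≤ m) (hw : w ≤ m) : m ^ w ≤ finrank ℂ V := by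
  rcases dim_lower h hr with h3 | h3
  · exact ((pow_le_choose m w).trans
      (Nat.choose_le_choose w ((Nat.mul_le_mul_left m hw).trans hm))).trans h3
  · refine le_trans ?_ h3
    calc m ^ w ≤ m ^ m := Nat.pow_le_pow_right (by omega) hw
      _ ≤ (2 ^ (m / 2)) ^ m := Nat.pow_le_pow_left (le_two_pow_half hm') m
      _ ≤ 2 ^ (r / 2) := by
        rw [← pow_mul]
        refine Nat.pow_le_pow_right (by omega) ?_
        rw [Nat.le_div_iff_mul_le (by omega)]
        have : m / 2 * 2 ≤ m := Nat.div_mul_le_self m 2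
        nlinarith

end

lemma irrCount_le (hc : 2600 ≤ Fintype.card α) {N : ℕ} (hN : 1 ≤ N) :
    irrCount (alternatingGroup α) N ≤ N ^ 25 := by
  classical
  obtain ⟨r, hr, hr'⟩ : ∃ r, r * 4 + 2 ≤ Fintype.card α ∧ Fintype.card α ≤ r * 4 + 5 :=
    ⟨(Fintype.card α - 2) / 4, by omega, by omega⟩
  obtain ⟨m, hm, hm'⟩ : ∃ m, m * m ≤ r ∧ r < (m + 1) * (m + 1) :=
    ⟨r.sqrt, Nat.sqrt_le r, Nat.lt_succ_sqrt r⟩
  have h25 : 25 ≤ m := by nlinarith
  have hcube : Fintype.card α + 1 ≤ m ^ 3 := by nlinarith [Nat.mul_le_mul_right (m * m) h25]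
  have hfin : {χ ∈ IrrChar (alternatingGroup α) | χ 1 = N}.Finite :=
    irrChar_finite.subset (Set.sep_subset _ _)
  rw [irrCount, Set.ncard_eq_toFinset_card _ hfin]
  by_cases hbig : m ^ m ≤ N
  · refine (card_irr_le _ (by simp)).trans ?_
    have h1 := card_partition_le (n := Fintype.card α) (d := 2 * m + 2) (by nlinarith)
    calc _ ≤ ((m ^ 3) ^ 2) ^ (2 * (2 * m + 2)) * m :=
          Nat.mul_le_mul (h1.trans (by gcongr)) (by omega)
      _ = m ^ (24 * m + 25) := by ring
      _ ≤ m ^ (m * 25) := Nat.pow_le_pow_right (by omega) (by omega)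
      _ ≤ N ^ 25 := by
        rw [pow_mul]
        exact Nat.pow_le_pow_left hbig 25
  · have hW : Nat.log m N < m := Nat.log_lt_of_lt_pow (by omega) (by omega)
    have hW1 : m ^ Nat.log m N ≤ N := Nat.pow_log_le_self m (by omega)
    have hW2 : N < m ^ (Nat.log m N + 1) := Nat.lt_pow_succ_log_self (by omega) N
    generalize Nat.log m N = W at hW hW1 hW2
    have hW3 : W * 4 + 6 ≤ Fintype.card α := by nlinarith
    obtain ⟨B, hB⟩ := exists_blocks (α := α) W (by omega)
    refine (card_le_of_fixed hfin.toFinset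
      (fun (g : alternatingGroup α) (x : Fin W × Fin 4) => (g : Perm α) (B x.1 x.2))
      (fun χ hχ => ?_)).trans ?_
    · rw [Set.Finite.mem_toFinset] at hχ
      obtain ⟨⟨V, _, _, _, ρ, hρ, rfl⟩, h1⟩ := hχ
      rw [char_one, Nat.cast_inj] at h1
      obtain ⟨w, h2, h3⟩ := exists_max_weight (ρ := ρ) ((irreducible_iff ρ).1 hρ).1
      have h4 : w ≤ W := by
        by_contra h4
        have := pow_le_dim (h2.mono (show W + 1 ≤ w by omega)) hr hm (by omega) hW
        omega
      obtain ⟨v, hv, h5⟩ := exists_fixed h2 h3 h4 hB hW3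
      refine ⟨V, _, _, inferInstance, ρ, hρ, rfl, v, hv, fun g h hgh => ?_⟩
      have := h5 (h⁻¹ * g) (fun i a => by
        have := congrFun hgh (i, a)
        simp only at this
        simp [this])
      conv_rhs => rw [← this, ← Module.End.mul_apply, ← map_mul, mul_inv_cancel_left]
    · simp only [Fintype.card_pi, Finset.prod_const, Finset.card_univ, Fintype.card_prod,
        Fintype.card_fin]
      calc _ ≤ (m ^ 3) ^ (W * 4) := Nat.pow_le_pow_left (by omega) _
        _ = (m ^ W) ^ 12 := by ring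
        _ ≤ N ^ 12 := Nat.pow_le_pow_left hW1 12
        _ ≤ N ^ 25 := Nat.pow_le_pow_right hN (by omega)

lemma irr_cases (hc : 50 ≤ Fintype.card α) {χ : alternatingGroup α → ℂ}
    (hχ : χ ∈ IrrChar (alternatingGroup α)) {N : ℕ} (hN : χ 1 = N) :
    (χ = (fun _ => 1) ∧ N = 1) ∨
      (χ = (stdSub α).toRepresentation.character ∧ N + 1 = Fintype.card α) ∨
      (Fintype.card α - 1) ^ 2 ≤ 64 * N := by
  obtain ⟨V, _, _, _, ρ, hρ, rfl⟩ := hχ
  by_cases h : HasW ρ 2
  · rw [char_one, Nat.cast_inj] at hN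
    exact Or.inr (Or.inr (hN ▸ big_of_weight_two hc h))
  rcases weight_le_one (by omega) hρ h with h1 | h1
  · refine Or.inl ⟨h1, ?_⟩
    rw [h1] at hN
    exact_mod_cast (show (N : ℂ) = 1 from hN.symm)
  · refine Or.inr (Or.inl ⟨h1, ?_⟩)
    rw [h1, char_one, Nat.cast_inj] at hN
    rw [← hN]
    exact std_finrank (by omega)

/-- The properties of the degree counts of alternating groups that are used. -/
structure Good (j : ℕ) (Z : ArithmeticFunction ℤ) : Prop where
  one : Z 1 = 1
  self : Z j = 1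
  nonneg : ∀ n, 0 ≤ Z n
  supp : ∀ n, Z n ≠ 0 → n = 1 ∨ n = j ∨ (j < n ∧ j ^ 4 ≤ n ^ 3)
  le : ∀ n, Z n ≤ n ^ 25

lemma good_alt {j : ℕ} (hj : 4096 ≤ j) : Good j (zetaAF (alternatingGroup (Fin (j + 1)))) := by
  have hc : 50 ≤ Fintype.card (Fin (j + 1)) := by simp; omega
  refine ⟨?_, ?_, fun n => by simp [zetaAF_apply], fun n hn => ?_, fun n => ?_⟩
  · rw [zetaAF_apply, irrCount, Nat.cast_eq_one, Set.ncard_eq_one]
    refine ⟨fun _ => 1, Set.eq_singleton_iff_unique_mem.2 ⟨⟨one_mem_irrChar _, by simp⟩, ?_⟩⟩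
    rintro χ ⟨h1, h2⟩
    rcases irr_cases hc h1 h2 with h | h | h
    · exact h.1
    · simp at h
      omega
    · simp at h
      nlinarith
  · rw [zetaAF_apply, irrCount, Nat.cast_eq_one, Set.ncard_eq_one]
    refine ⟨(stdSub (Fin (j + 1))).toRepresentation.character,
      Set.eq_singleton_iff_unique_mem.2 ⟨⟨⟨_, _, _, inferInstance, _,
        std_irreducible (by omega), rfl⟩, ?_⟩, ?_⟩⟩
    · rw [char_one, Nat.cast_inj]
      simpa using std_finrank (α := Fin (j + 1)) (by omega)
    rintro χ ⟨h1, h2⟩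
    rcases irr_cases hc h1 h2 with h | h | h
    · omega
    · exact h.1
    · simp at h
      nlinarith
  · rw [zetaAF_apply, irrCount, Nat.cast_ne_zero] at hn
    obtain ⟨χ, h1, h2⟩ := Set.nonempty_of_ncard_ne_zero hn
    rcases irr_cases hc h1 h2 with h | h | h
    · exact Or.inl h.2
    · exact Or.inr (Or.inl (by simpa using h.2))
    · simp only [Fintype.card_fin, add_tsub_cancel_right] at h
      have h3 : 4096 ≤ n := by nlinarith
      refine Or.inr (Or.inr ⟨by nlinarith, ?_⟩)
      calc j ^ 4 = (j ^ 2) ^ 2 := by ring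
        _ ≤ (64 * n) ^ 2 := Nat.pow_le_pow_left h 2
        _ = 4096 * n ^ 2 := by ring
        _ ≤ n * n ^ 2 := Nat.mul_le_mul_right _ h3
        _ = n ^ 3 := by ring
  · rcases Nat.eq_zero_or_pos n with rfl | hn
    · simp
    · rw [zetaAF_apply]
      exact_mod_cast irrCount_le (by simp; omega) hn

end Pool.Agent.MP_810665_al
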