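import Pool.Agent.MP_810665_al.Dir

namespace Pool.Agent.MP_810665_al

open Complex Filter Topology

lemma meromorphic_zeta : Meromorphic riemannZeta := by
  intro s
  by_cases hs : s = 1
  swap
  · exact (analyticOn_riemannZeta s hs).meromorphicAt
  subst hs
  have h1 : MeromorphicAt
      (fun s : ℂ => (completedRiemannZeta₀ s - 1 / s - 1 / (1 - s)) * (Gammaℝ s)⁻¹) 1 := by
    have a1 := (differentiable_completedZeta₀.analyticAt 1).meromorphicAt
    have a2 := (differentiable_Gammaℝ_inv.analyticAt 1).meromorphicAt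
    fun_prop
  refine h1.congr ?_
  have : ∀ᶠ s in 𝓝[≠] (1 : ℂ), s ≠ 0 :=
    eventually_nhdsWithin_of_eventually_nhds (eventually_ne_nhds one_ne_zero)
  filter_upwards [this] with s hs
  rw [riemannZeta_def_of_ne_zero hs, completedRiemannZeta_eq,
    div_eq_mul_inv _ (Gammaℝ s)]

/-- The denominator of the continuation. -/
noncomputable def den (s : ℂ) : ℂ :=
  1 - riemannZeta (s - 114) + ∑ n ∈ Finset.Ico (1 : ℕ) 4096, (n : ℂ) ^ (114 - s)

lemma analytic_sum (s : ℂ) :
    AnalyticAt ℂ (fun s : ℂ => ∑ n ∈ Finset.Ico (1 : ℕ) 4096, (n : ℂ) ^ (114 - s)) s := by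
  refine Differentiable.analyticAt (Differentiable.fun_sum (fun n hn => ?_)) s
  refine Differentiable.const_cpow (by fun_prop) (Or.inl ?_)
  have := (Finset.mem_Ico.1 hn).1
  exact_mod_cast (show n ≠ 0 by omega)

lemma meromorphic_den : Meromorphic den := by
  intro s
  have h1 : MeromorphicAt (fun s => riemannZeta (s - 114)) s :=
    (meromorphic_zeta (s - 114)).comp_analyticAt (g := fun s => s - 114) (by fun_prop)
  exact ((MeromorphicAt.const 1 s).sub h1).add (analytic_sum s).meromorphicAt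

lemma analytic_den : AnalyticAt ℂ den (-2) := by
  have h1 : AnalyticAt ℂ (fun s => riemannZeta (s - 114)) (-2) :=
    AnalyticAt.comp (f := fun s : ℂ => s - 114)
      (analyticOn_riemannZeta _ (by norm_num)) (by fun_prop)
  exact (analyticAt_const.sub h1).add (analytic_sum _)

lemma den_ne : den (-2) ≠ 0 := by
  have h1 := riemannZeta_neg_two_mul_nat_add_one 57
  have h2 : den (-2) = ((1 + ∑ n ∈ Finset.Ico (1 : ℕ) 4096, n ^ 116 : ℕ) : ℂ) := by
    rw [den, show (-2 - 114 : ℂ) = -2 * ((57 : ℕ) + 1) by norm_num, h1,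
      show (114 - -2 : ℂ) = (116 : ℕ) by norm_num]
    simp only [cpow_natCast, sub_zero, Nat.cast_add, Nat.cast_one, Nat.cast_sum, Nat.cast_pow]
  rw [h2, Nat.cast_ne_zero]
  omega

lemma hasSum_den {s : ℂ} (hs : 115 < s.re) :
    LSeriesHasSum (fun n => (((1 - DD : ArithmeticFunction ℤ) n : ℤ) : ℂ)) s (den s) := by
  have h1 : LSeriesHasSum 1 (s - 114) (riemannZeta (s - 114)) :=
    LSeriesHasSum_one (by simp; linarith)
  have h2 : HasSum (fun n : ℕ => if n = 1 then (1 : ℂ) else 0) 1 := hasSum_ite_eq 1 1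
  have h3 : HasSum
      (fun n : ℕ => if n ∈ Finset.Ico (1 : ℕ) 4096 then (n : ℂ) ^ (114 - s) else 0)
      (∑ n ∈ Finset.Ico (1 : ℕ) 4096, (n : ℂ) ^ (114 - s)) := by
    have := hasSum_sum_of_ne_finset_zero (L := .unconditional ℕ)
      (s := Finset.Ico (1 : ℕ) 4096)
      (f := fun n : ℕ => if n ∈ Finset.Ico (1 : ℕ) 4096 then (n : ℂ) ^ (114 - s) else 0)
      (fun n hn => if_neg hn)
    rwa [Finset.sum_congr rfl (fun n hn => if_pos hn)] at this
  have h4 := (h2.sub h1).add h3
  unfold LSeriesHasSum den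
  refine h4.congr_fun (fun n => ?_)
  rcases eq_or_ne n 0 with rfl | hn
  · simp
  have hn' : (n : ℂ) ≠ 0 := by exact_mod_cast hn
  have e1 : (n : ℂ) ^ (114 - s) = 1 / n ^ (s - 114) := by
    rw [one_div, ← cpow_neg, neg_sub]
  have e2 : (n : ℂ) ^ (114 : ℕ) / n ^ s = 1 / n ^ (s - 114) := by
    rw [← e1, cpow_sub _ _ hn', ← cpow_natCast]
    rfl
  rw [LSeries.term_of_ne_zero hn, LSeries.term_of_ne_zero hn, af_sub_apply, DD_apply,
    ArithmeticFunction.one_apply, e1, Pi.one_apply]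
  simp only [Finset.mem_Ico]
  split_ifs with a1 a2 a3 a4 a5 a6 a7
  · omega
  · omega
  · simp [a1]
  · omega
  · omega
  · push_cast
    rw [← e2]
    ring
  · simp
  · omega

theorem analytic_part (a : ArithmeticFunction ℤ) (r : ℕ → ℕ) (hr : ∀ n, a n = r n)
    (hb : ∀ n, a n ≤ n ^ 116) (h : (1 - DD) * a = 1) :
    ∃ α : ℝ, (∀ s : ℂ, α < s.re → LSeriesSummable (fun n => (r n : ℂ)) s) ∧
      ∃ F : ℂ → ℂ, Meromorphic F ∧ (∀ s : ℂ, α < s.re → F s = LSeries (fun n => (r n : ℂ)) s) ∧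
        AnalyticAt ℂ F (-2) ∧ F (-2) ≠ 0 := by
  have hsum : ∀ s : ℂ, 117 < s.re → LSeriesSummable (fun n => (r n : ℂ)) s := by
    intro s hs
    refine LSeriesSummable_of_le_const_mul_rpow (x := 117) hs ⟨1, fun n _ => ?_⟩
    have h1 := hb n
    rw [hr] at h1
    rw [one_mul, show (117 - 1 : ℝ) = (116 : ℕ) by norm_num, Real.rpow_natCast, norm_natCast]
    exact_mod_cast h1
  refine ⟨117, hsum, den⁻¹, meromorphic_den.inv, fun s hs => ?_, analytic_den.inv den_ne,
    inv_ne_zero den_ne⟩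
  have h1 := (hasSum_den (s := s) (by linarith)).convolution (hsum s hs).LSeriesHasSum
  have h2 : LSeries.convolution (fun n => (((1 - DD : ArithmeticFunction ℤ) n : ℤ) : ℂ))
      (fun n => (r n : ℂ)) = LSeries.delta := by
    rw [LSeries.convolution_def]
    ext n
    have := congrArg (fun f : ArithmeticFunction ℤ => ((f n : ℤ) : ℂ)) h
    simp only [ArithmeticFunction.mul_apply, hr, ArithmeticFunction.one_apply] at this
    push_cast at this
    rw [this, LSeries.delta]
  rw [h2] at h1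
  have h3 := h1.LSeries_eq
  rw [LSeries_delta, Pi.one_apply] at h3
  exact (eq_inv_of_mul_eq_one_right h3.symm).symm

end Pool.Agent.MP_810665_al
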