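import Mathlib

namespace Pool.Agent.MP_810665_al

/-- Continuous irreducible complex representations of `G` of dimension `n`. -/
def IrrRep (G : Type) [Group G] [TopologicalSpace G] (n : ℕ) : Type :=
  {ρ : Representation ℂ G (Fin n → ℂ) // ρ.IsIrreducible ∧ ∀ v, Continuous (fun g => ρ g v)}

/-- Their isomorphism classes. -/
def IrrClass (G : Type) [Group G] [TopologicalSpace G] (n : ℕ) : Type :=
  Quot (fun ρ σ : IrrRep G n => Nonempty (ρ.1.Equiv σ.1))

end Pool.Agent.MP_810665_al
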