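import Pool.Agent.MP_810665_al.Alt3

namespace Pool.Agent.MP_810665_al

open ArithmeticFunction

/-- The truncated power function. -/
def DD : ArithmeticFunction ℤ := ⟨fun n => if 4096 ≤ n then (n : ℤ) ^ 114 else 0, by simp⟩

lemma DD_apply (n : ℕ) : DD n = if 4096 ≤ n then (n : ℤ) ^ 114 else 0 := rfl

lemma af_sub_apply (f g : ArithmeticFunction ℤ) (n : ℕ) : (f - g) n = f n - g n := by
  rw [sub_eq_add_neg, ArithmeticFunction.add_apply, ArithmeticFunction.neg_apply, sub_eq_add_neg]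

lemma af_mul_nonneg {f g : ArithmeticFunction ℤ} (hf : ∀ n, 0 ≤ f n) (hg : ∀ n, 0 ≤ g n) (n : ℕ) :
    0 ≤ (f * g) n := by
  rw [mul_apply]
  exact Finset.sum_nonneg (fun x _ => mul_nonneg (hf _) (hg _))

lemma af_one_nonneg (n : ℕ) : 0 ≤ (1 : ArithmeticFunction ℤ) n := by
  rw [one_apply]
  split_ifs <;> simp

lemma af_pow_nonneg {f : ArithmeticFunction ℤ} (hf : ∀ n, 0 ≤ f n) (i : ℕ) :
    ∀ n, 0 ≤ (f ^ i) n := by
  induction i with
  | zero => simpa using af_one_nonneg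
  | succ i ih =>
    rw [pow_succ]
    exact af_mul_nonneg ih hf

lemma step_pow {N : ℕ} (hN : 2 ≤ N) {Z u : ArithmeticFunction ℤ} (hZ : Good N Z)
    (hu : ∀ n < N, u n = 0) (i : ℕ) (h1 : (i : ℤ) ≤ u N) (h2 : ∀ n, N < n → i * Z n ≤ u n) :
    (∀ n < N, (1 - (1 - u) * Z ^ i) n = 0) ∧ (1 - (1 - u) * Z ^ i) N = u N - i ∧
      ∀ n, N < n → u n - i * Z n ≤ (1 - (1 - u) * Z ^ i) n := by
  induction i with
  | zero => simpa using hu
  | succ i ih =>
    push_cast at h1 h2 ⊢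
    have h2' : ∀ n, N < n → i * Z n ≤ u n := fun n hn => by
      have := h2 n hn
      have := hZ.nonneg n
      linarith
    obtain ⟨i1, i2, i3⟩ := ih (by omega) h2'
    have e : 1 - (1 - u) * Z ^ (i + 1) = (1 - (1 - u) * Z ^ i) - (Z - 1)
        + (1 - (1 - u) * Z ^ i) * (Z - 1) := by ring
    rw [e]
    generalize 1 - (1 - u) * Z ^ i = w at i1 i2 i3
    have t1 : ∀ n < N, (Z - 1) n = 0 := by
      intro n hn
      rw [af_sub_apply, one_apply]
      split_ifs with h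
      · rw [h, hZ.one, sub_self]
      · by_contra h3
        have := hZ.supp n (by simpa using h3)
        omega
    have t2 : ∀ n, N ≤ n → (Z - 1) n = Z n := by
      intro n hn
      rw [af_sub_apply, one_apply_ne (by omega), sub_zero]
    have t3 : ∀ n, 0 ≤ (Z - 1) n := by
      intro n
      rcases lt_or_ge n N with h | h
      · rw [t1 n h]
      · rw [t2 n h]
        exact hZ.nonneg n
    have w0 : ∀ n, 0 ≤ w n := by
      intro n
      rcases lt_trichotomy n N with h | rfl | h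
      · rw [i1 n h]
      · omega
      · have := i3 n h
        have := h2' n h
        linarith
    have p0 : ∀ n ≤ N, (w * (Z - 1)) n = 0 := by
      intro n hn
      rw [mul_apply]
      refine Finset.sum_eq_zero (fun x hx => ?_)
      obtain ⟨hx, hn0⟩ := Nat.mem_divisorsAntidiagonal.1 hx
      by_cases h : x.1 < N
      · rw [i1 _ h, zero_mul]
      · rw [t1 x.2 (by nlinarith), mul_zero]
    refine ⟨fun n hn => ?_, ?_, fun n hn => ?_⟩
    · rw [ArithmeticFunction.add_apply, af_sub_apply, i1 n hn, t1 n hn, p0 n hn.le]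
      simp
    · rw [ArithmeticFunction.add_apply, af_sub_apply, i2, t2 N le_rfl, p0 N le_rfl, hZ.self]
      ring
    · rw [ArithmeticFunction.add_apply, af_sub_apply, t2 n hn.le]
      have := af_mul_nonneg w0 t3 n
      have := i3 n hn
      linarith

lemma DD_mul_le {P : ArithmeticFunction ℤ} {n : ℕ}
    (h : ∀ m < n, P m ≤ m ^ 116) : (DD * P) n ≤ n ^ 116 := by
  rcases Nat.eq_zero_or_pos n with rfl | hn
  · simp
  have key : ((DD * P) n : ℝ) ≤ ∑ a ∈ Finset.Ioc 1 n, (n : ℝ) ^ 116 * ((a : ℝ) ^ 2)⁻¹ := by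
    rw [mul_apply, Nat.sum_divisorsAntidiagonal (fun a b => DD a * P b)]
    push_cast
    rw [← Finset.sum_filter_of_ne (p := fun a => 4096 ≤ a) (fun a _ ha => by
      by_contra h
      simp [DD_apply, h] at ha)]
    refine le_trans (Finset.sum_le_sum (fun a ha => ?_)) (Finset.sum_le_sum_of_subset_of_nonneg
      (fun a ha => ?_) (fun _ _ _ => by positivity))
    · rw [Finset.mem_filter] at ha
      obtain ⟨b, rfl⟩ := Nat.dvd_of_mem_divisors ha.1
      have ha0 : 0 < a := by omega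
      have hb0 : 0 < b := Nat.pos_of_mul_pos_left hn
      rw [Nat.mul_div_cancel_left _ ha0, DD_apply, if_pos ha.2]
      have h1 : (P b : ℝ) ≤ b ^ 116 := by exact_mod_cast h b (by nlinarith [ha.2])
      push_cast
      calc (a : ℝ) ^ 114 * P b ≤ a ^ 114 * b ^ 116 := by gcongr
        _ = (a * b) ^ 116 * ((a : ℝ) ^ 2)⁻¹ := by
          field_simp
    · rw [Finset.mem_filter] at ha
      have := Nat.divisor_le ha.1
      rw [Finset.mem_Ioc]
      omega
  rw [← Finset.mul_sum] at key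
  have h1 := sum_Ioc_inv_sq_le_sub (α := ℝ) (k := 1) (n := n) one_ne_zero hn
  have h2 : ((DD * P) n : ℝ) ≤ (n : ℝ) ^ 116 := by
    refine key.trans (mul_le_of_le_one_right (by positivity) (h1.trans ?_))
    simp
  exact_mod_cast h2

lemma le_of_sub_nonneg {P : ArithmeticFunction ℤ}
    (hu : ∀ m, 0 ≤ (1 - (1 - DD) * P) m) (n : ℕ) : P n ≤ n ^ 116 := by
  induction n using Nat.strong_induction_on with
  | _ n ih =>
    have h1 := DD_mul_le ih
    have h2 := hu n
    rw [sub_mul, one_mul, af_sub_apply, af_sub_apply] at h2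
    by_cases hn : n = 1
    · subst hn
      simp [DD_apply] at h2 ⊢
      omega
    · rw [one_apply_ne hn] at h2
      omega

variable (Z : ℕ → ArithmeticFunction ℤ)

/-- The recursively defined finite products. -/
def PP : ℕ → ArithmeticFunction ℤ
  | 0 => 1
  | N + 1 => PP N * Z N ^ ((1 - (1 - DD) * PP N) N).toNat

lemma PP_eq (M : ℕ) :
    PP Z M = ∏ j ∈ Finset.range M, Z j ^ ((1 - (1 - DD) * PP Z j) j).toNat := by
  induction M with
  | zero => rfl
  | succ M ih => rw [Finset.prod_range_succ, ← ih, PP]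

lemma PP_small (M : ℕ) (hM : M ≤ 4096) : PP Z M = 1 := by
  induction M with
  | zero => rfl
  | succ M ih =>
    rw [PP, ih (by omega)]
    simp [DD_apply, show ¬ 4096 ≤ M by omega]

variable {Z}

lemma PP_inv (hZ : ∀ j, 4096 ≤ j → Good j (Z j)) {N : ℕ} (hN : 4096 ≤ N) :
    (∀ n < N, (1 - (1 - DD) * PP Z N) n = 0) ∧
    (∀ n, N ≤ n → (n : ℤ) ^ 114 - N * n ^ 112 ≤ (1 - (1 - DD) * PP Z N) n) ∧
    (∀ n, 0 ≤ PP Z N n) ∧ (∀ n, PP Z N n ≤ n ^ 116) ∧
    1 ≤ (1 - (1 - DD) * PP Z N) N ∧ (1 - (1 - DD) * PP Z N) N ≤ N ^ 116 := by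
  have aux : ∀ N : ℕ, 4096 ≤ N → ∀ n : ℕ, N ≤ n → (n : ℤ) ^ 112 ≤ n ^ 114 - N * n ^ 112 := by
    intro N hN n hn
    have h1 : (N : ℤ) + 1 ≤ n ^ 2 := by
      have : N + 1 ≤ n ^ 2 := by nlinarith
      exact_mod_cast this
    have h2 : (0 : ℤ) ≤ (n : ℤ) ^ 112 := by positivity
    have h3 : (n : ℤ) ^ 114 = n ^ 2 * n ^ 112 := by ring
    nlinarith
  have fin : ∀ N : ℕ, 4096 ≤ N → ∀ P : ArithmeticFunction ℤ, (∀ n < N, (1 - (1 - DD) * P) n = 0) →
      (∀ n, N ≤ n → (n : ℤ) ^ 114 - N * n ^ 112 ≤ (1 - (1 - DD) * P) n) → (∀ n, 0 ≤ P n) →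
      (∀ n, P n ≤ n ^ 116) ∧ 1 ≤ (1 - (1 - DD) * P) N ∧ (1 - (1 - DD) * P) N ≤ N ^ 116 := by
    intro N hN P h1 h2 h3
    have h4 := le_of_sub_nonneg (P := P) (fun n => by
      rcases lt_or_ge n N with h | h
      · rw [h1 n h]
      · exact le_trans (by positivity) ((aux N hN n h).trans (h2 n h)))
    refine ⟨h4, le_trans ?_ ((aux N hN N le_rfl).trans (h2 N le_rfl)), ?_⟩
    · exact one_le_pow₀ (by omega)
    · have h5 := DD_mul_le (n := N) (fun m _ => h4 m)
      have h6 := h3 N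
      rw [sub_mul, one_mul, af_sub_apply, af_sub_apply, one_apply_ne (by omega)]
      omega
  induction N, hN using Nat.le_induction with
  | base =>
    have h1 : ∀ n < 4096, (1 - (1 - DD) * PP Z 4096) n = 0 := by
      intro n hn
      simp [PP_small Z 4096 le_rfl, DD_apply, hn]
    have h2 : ∀ n : ℕ, 4096 ≤ n →
        (n : ℤ) ^ 114 - (4096 : ℕ) * n ^ 112 ≤ (1 - (1 - DD) * PP Z 4096) n := by
      intro n hn
      simp [PP_small Z 4096 le_rfl, DD_apply, hn]
    have h3 : ∀ n, 0 ≤ PP Z 4096 n := by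
      rw [PP_small Z 4096 le_rfl]
      exact af_one_nonneg
    exact ⟨h1, h2, h3, fin _ le_rfl _ h1 h2 h3⟩
  | succ N hN ih =>
    obtain ⟨i1, i2, i3, -, i5, i6⟩ := ih
    have hG := hZ N hN
    have e : 1 - (1 - DD) * PP Z (N + 1) = 1 - (1 - (1 - (1 - DD) * PP Z N))
        * Z N ^ ((1 - (1 - DD) * PP Z N) N).toNat := by
      rw [PP]
      ring
    have h3 : ∀ n, 0 ≤ PP Z (N + 1) n := by
      rw [PP]
      exact af_mul_nonneg i3 (af_pow_nonneg hG.nonneg _)
    generalize 1 - (1 - DD) * PP Z N = u at *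
    have hf : ((u N).toNat : ℤ) = u N := Int.toNat_of_nonneg (by omega)
    have hb : ∀ n, N < n → ((u N).toNat : ℤ) * Z N n ≤ n ^ 112 := by
      intro n hn
      by_cases h0 : Z N n = 0
      · rw [h0, mul_zero]
        positivity
      have h4 : N ^ 4 ≤ n ^ 3 := by
        have := hG.supp n h0
        omega
      have h5 : (N : ℤ) ^ 116 ≤ n ^ 87 := by
        have := Nat.pow_le_pow_left h4 29
        rw [← pow_mul, ← pow_mul] at this
        exact_mod_cast this
      rw [hf, show (n : ℤ) ^ 112 = n ^ 87 * n ^ 25 by ring]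
      exact mul_le_mul (i6.trans h5) (hG.le n) (hG.nonneg n) (by positivity)
    obtain ⟨s1, s2, s3⟩ := step_pow (by omega) hG i1 (u N).toNat hf.le
      (fun n hn => (hb n hn).trans ((aux N hN n hn.le).trans (i2 n hn.le)))
    rw [← e] at s1 s2 s3
    have h1 : ∀ n < N + 1, (1 - (1 - DD) * PP Z (N + 1)) n = 0 := by
      intro n hn
      rcases (Nat.lt_succ_iff.1 hn).lt_or_eq with h | rfl
      · exact s1 n h
      · rw [s2, hf, sub_self]
    have h2 : ∀ n, N + 1 ≤ n →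
        (n : ℤ) ^ 114 - (N + 1 : ℕ) * n ^ 112 ≤ (1 - (1 - DD) * PP Z (N + 1)) n := by
      intro n hn
      have := s3 n hn
      have := hb n hn
      have := i2 n (by omega)
      push_cast
      linarith
    exact ⟨h1, h2, h3, fin _ (by omega) _ h1 h2 h3⟩

theorem exists_mult (hZ : ∀ j, 4096 ≤ j → Good j (Z j)) : ∃ f : ℕ → ℕ,
    (∀ j < 4096, f j = 0) ∧ (∀ j, 4096 ≤ j → 1 ≤ f j ∧ f j ≤ j ^ 116) ∧ ∀ M, 4096 ≤ M →
      (∀ n < M, ((1 - DD) * ∏ j ∈ Finset.range M, Z j ^ f j) n = (1 : ArithmeticFunction ℤ) n) ∧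
      ∀ n, (∏ j ∈ Finset.range M, Z j ^ f j) n ≤ n ^ 116 := by
  refine ⟨fun j => ((1 - (1 - DD) * PP Z j) j).toNat, fun j hj => ?_, fun j hj => ?_,
    fun M hM => ?_⟩
  · simp [PP_small Z j hj.le, DD_apply, show ¬ 4096 ≤ j by omega]
  · obtain ⟨-, -, -, -, h1, h2⟩ := PP_inv hZ hj
    beta_reduce
    refine ⟨by omega, ?_⟩
    rw [Int.toNat_le]
    exact_mod_cast h2
  · obtain ⟨h1, -, -, h2, -⟩ := PP_inv hZ hM
    rw [← PP_eq]
    refine ⟨fun n hn => ?_, h2⟩
    have := h1 n hn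
    rw [af_sub_apply] at this
    omega

end Pool.Agent.MP_810665_al
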