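import Pool.Agent.MP_810665_al.Prof
import Pool.Agent.MP_810665_al.Ana

namespace Pool.Agent.MP_810665_al

open Representation Module Equiv Equiv.Perm

lemma exists_gens (j : ℕ) : ∃ γ : Fin 4 → alternatingGroup (Fin (j + 1)),
    Subgroup.closure (Set.range γ) = ⊤ := by
  classical
  rcases j with _ | j
  · refine ⟨1, eq_top_iff.2 (fun x _ => ?_)⟩
    rw [show x = 1 from Subtype.ext (Equiv.ext (fun i => Fin.ext (by omega)))]
    exact Subgroup.one_mem _
  have h1 := closure_cycle_adjacent_swap (isCycle_finRotate (n := j)) support_finRotate 0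
  obtain ⟨T, hT, hT'⟩ := (alternatingGroup (Fin (j + 2))).exists_finset_card_le_mul
    (S := {finRotate (j + 2), swap 0 (finRotate (j + 2) 0)}) (by simpa using h1)
  rw [alternatingGroup.index_eq_two] at hT
  have h2 : T.card ≤ 4 := hT.trans (Nat.mul_le_mul_left 2 Finset.card_le_two)
  obtain ⟨e⟩ : Nonempty (T ↪ Fin 4) := Function.Embedding.nonempty_of_card_le (by simpa using h2)
  refine ⟨Function.extend e Subtype.val 1, ?_⟩
  rw [eq_top_iff, ← hT']
  exact Subgroup.closure_mono (fun x hx => ⟨e ⟨x, hx⟩, e.injective.extend_apply _ _ _⟩)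

lemma pow_le_card {j : ℕ} (hj : 4096 ≤ j) :
    j ^ 116 ≤ Fintype.card (alternatingGroup (Fin (j + 1))) := by
  have : Nontrivial (Fin (j + 1)) := Fin.nontrivial_iff_two_le.2 (by omega)
  have h1 := two_mul_card_alternatingGroup (α := Fin (j + 1))
  rw [Fintype.card_perm, Fintype.card_fin] at h1
  obtain ⟨t, ht, ht'⟩ : ∃ t, t * t ≤ j + 1 ∧ j + 1 < (t + 1) * (t + 1) :=
    ⟨(j + 1).sqrt, Nat.sqrt_le _, Nat.lt_succ_sqrt _⟩
  have h64 : 64 ≤ t := by nlinarith
  have h3 : j * j ≤ t ^ 5 := by
    have : j ≤ 2 * (t * t) := by nlinarith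
    calc j * j ≤ (2 * (t * t)) * (2 * (t * t)) := Nat.mul_le_mul this this
      _ = 4 * t ^ 4 := by ring
      _ ≤ t * t ^ 4 := Nat.mul_le_mul_right _ (by omega)
      _ = t ^ 5 := by ring
  have h5 := Nat.factorial_le (show t + 291 ≤ j + 1 by nlinarith)
  have h2 : t ^ 291 ≤ (j + 1).factorial :=
    (Nat.pow_le_pow_left (Nat.le_succ t) 291).trans
      ((Nat.le_mul_of_pos_left _ (Nat.factorial_pos t)).trans
        (Nat.factorial_mul_pow_le_factorial.trans h5))
  have h4 : 2 * j ^ 116 ≤ t ^ 291 :=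
    calc 2 * j ^ 116 = 2 * (j * j) ^ 58 := by ring
      _ ≤ t * (t ^ 5) ^ 58 := Nat.mul_le_mul (le_trans (by norm_num) h64)
        (Nat.pow_le_pow_left h3 _)
      _ = t ^ 291 := by ring
  exact Nat.le_of_mul_le_mul_left ((h4.trans h2).trans h1.ge) two_pos

theorem exists_group : ∃ G : ProfiniteGrp.{0}, Infinite G ∧
    (∃ S : Finset G, (Subgroup.closure (S : Set G)).topologicalClosure = ⊤) ∧
    (∀ U : Subgroup G, IsOpen (U : Set G) → Finite (TopologicalAbelianization U)) ∧
    (∀ n, Finite (IrrClass G n)) ∧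
    ∃ a : ArithmeticFunction ℤ, (∀ n, a n = Nat.card (IrrClass G n)) ∧
      (∀ n, a n ≤ n ^ 116) ∧ (1 - DD) * a = 1 := by
  classical
  obtain ⟨f, hf0, hf1, hf⟩ := exists_mult
    (Z := fun j => zetaAF (alternatingGroup (Fin (j + 1)))) (fun j hj => good_alt hj)
  let I : Type := Σ j, Fin (f j)
  let H : I → Type := fun i => alternatingGroup (Fin (i.1 + 1))
  let _ : ∀ i, TopologicalSpace (H i) := fun _ => ⊥
  have : ∀ i, DiscreteTopology (H i) := fun _ => ⟨rfl⟩
  have : ∀ i, IsTopologicalGroup (H i) := fun _ =>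
    { continuous_mul := continuous_of_discreteTopology
      continuous_inv := continuous_of_discreteTopology }
  have hI : ∀ i : I, 4096 ≤ i.1 := by
    rintro ⟨j, a⟩
    by_contra h
    have := hf0 j (by simpa using h)
    have := a.2
    omega
  have h5 : ∀ i : I, 5 ≤ Nat.card (Fin (i.1 + 1)) := fun i => by
    have := hI i
    simp only [Nat.card_eq_fintype_card, Fintype.card_fin]
    omega
  have : ∀ i, IsSimpleGroup (H i) := fun i => alternatingGroup.isSimpleGroup (h5 i)
  have hperf : ∀ i, commutator (H i) = ⊤ := fun i => commutator_alternatingGroup_eq_top (h5 i)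
  have hcount : ∀ n M, 4 * n + 5 ≤ M → Finite (IrrClass (∀ i, H i) n) ∧
      (Nat.card (IrrClass (∀ i, H i) n) : ℤ) =
        (∏ j ∈ Finset.range M, zetaAF (alternatingGroup (Fin (j + 1))) ^ f j) n := by
    intro n M hM
    obtain ⟨h1, h2⟩ := card_irrClass (H := H) (n := n)
      ((Finset.range M).sigma (fun _ => Finset.univ)) (fun i hi ρ => by
        have := hI i
        have : M ≤ i.1 := not_lt.1 (fun h =>
          hi (Finset.mem_sigma.2 ⟨Finset.mem_range.2 h, Finset.mem_univ _⟩))
        exact trivial_of_small (by simp; omega) (by simp; omega))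
    refine ⟨h1, ?_⟩
    rw [h2, ← zetaAF_apply, zetaAF_pi, Finset.prod_coe_sort _ (fun i : I => zetaAF (H i)),
      Finset.prod_sigma]
    refine congrArg (fun z : ArithmeticFunction ℤ => z n) (Finset.prod_congr rfl (fun j _ => ?_))
    exact (Finset.prod_const (zetaAF (alternatingGroup (Fin (j + 1))))).trans (by simp)
  refine ⟨ProfiniteGrp.of (∀ i, H i), ?_, ?_, fab hperf, fun n => (hcount n _ le_rfl).1,
    ⟨fun n => Nat.card (IrrClass (∀ i, H i) n), by simpa using (hcount 0 _ le_rfl).2⟩,
    fun n => rfl, fun n => ?_, ?_⟩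
  · have : Infinite I := Infinite.of_injective
      (fun j : ℕ => (⟨j + 4096, ⟨0, (hf1 _ (by omega)).1⟩⟩ : I))
      (fun j k h => by simpa using congrArg Sigma.fst h)
    exact Pi.infinite_of_left
  · choose γ hγ using exists_gens
    have hc : ∀ j, Nonempty (Fin (f j) ↪ alternatingGroup (Fin (j + 1))) := by
      intro j
      refine Function.Embedding.nonempty_of_card_le ?_
      rw [Fintype.card_fin]
      by_cases hj : 4096 ≤ j
      · exact (hf1 j hj).2.trans (pow_le_card hj)
      · rw [hf0 j (by omega)]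
        exact Nat.zero_le _
    let c := fun j => (hc j).some
    let g : Option (Fin 4) → ∀ i, H i := fun o i => o.elim (c i.1 i.2) (γ i.1)
    let K := Subgroup.closure (Set.range g)
    have hg : ∀ o, g o ∈ K := fun o => Subgroup.subset_closure ⟨o, rfl⟩
    have h1 : ∀ i, K.map (Pi.evalMonoidHom H i) = ⊤ := by
      intro i
      rw [eq_top_iff, ← hγ i.1, Subgroup.closure_le]
      rintro _ ⟨a, rfl⟩
      exact ⟨g (some a), hg _, rfl⟩
    have h2 : ∀ i, Function.Surjective ((Pi.evalMonoidHom H i).comp K.subtype) := by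
      intro i x
      obtain ⟨k, hk, rfl⟩ : x ∈ K.map (Pi.evalMonoidHom H i) := by simp [h1 i]
      exact ⟨⟨k, hk⟩, rfl⟩
    refine ⟨Finset.univ.image g, ?_⟩
    rw [Finset.coe_image, Finset.coe_univ, Set.image_univ]
    refine dense_of_separate hperf K h1 (fun i i' hne => ?_)
    by_contra hcon
    push Not at hcon
    obtain ⟨φ, hφ, hφ'⟩ := exists_equiv_of_ker (h2 i') (h2 i) (fun k hk => by
      by_contra h
      exact hcon k.1 k.2 h hk)
    have h3 := hI i
    have h4 := hI i'
    obtain ⟨j, a⟩ := i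
    obtain ⟨j', a'⟩ := i'
    simp only at h3 h4
    obtain rfl : j = j' := by
      have h6 := Nat.card_eq_of_bijective φ hφ
      have : Nontrivial (Fin (j + 1)) := Fin.nontrivial_iff_two_le.2 (by omega)
      have : Nontrivial (Fin (j' + 1)) := Fin.nontrivial_iff_two_le.2 (by omega)
      have h7 := two_mul_nat_card_alternatingGroup (α := Fin (j + 1))
      have h8 := two_mul_nat_card_alternatingGroup (α := Fin (j' + 1))
      rw [Nat.card_perm, Nat.card_eq_fintype_card (α := Fin _), Fintype.card_fin] at h7 h8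
      have h9 : (j + 1).factorial = (j' + 1).factorial := by
        rw [← h7, ← h8]
        exact congrArg _ h6.symm
      have := (Nat.factorial_inj (by omega)).1 h9
      omega
    have h6 : φ = MonoidHom.id _ := MonoidHom.eq_of_eqOn_dense (hγ j) (by
      rintro _ ⟨b, rfl⟩
      exact hφ' ⟨g (some b), hg _⟩)
    have h7 := hφ' ⟨g none, hg _⟩
    rw [h6] at h7
    exact hne (congrArg _ ((c j).injective h7).symm)
  · exact (hcount n (4 * n + 4096) (by omega)).2.trans_le ((hf _ (by omega)).2 n)
  · ext n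
    rw [← (hf (4 * n + 4096) (by omega)).1 n (by omega), ArithmeticFunction.mul_apply,
      ArithmeticFunction.mul_apply]
    refine Finset.sum_congr rfl (fun x hx => ?_)
    have := Nat.divisor_le (Nat.snd_mem_divisors_of_mem_antidiagonal hx)
    rw [← (hcount x.2 _ (by omega)).2]
    rfl

end Pool.Agent.MP_810665_al
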