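import Pool.Agent.MP_810665_al.Defs
import Pool.Agent.MP_810665_al.Prod

namespace Pool.Agent.MP_810665_al

open Representation Module Filter Topology

variable {I : Type} [DecidableEq I] {H : I → Type} [∀ i, Group (H i)]
  [∀ i, TopologicalSpace (H i)]

/-- A closed subgroup containing the factors outside `s` contains the whole tail. -/
lemma tail_mem (K : Subgroup (∀ i, H i)) (hK : IsClosed (K : Set (∀ i, H i))) (s : Finset I)
    (h : ∀ i ∉ s, ∀ x : H i, Pi.mulSingle i x ∈ K) (g : ∀ i, H i) (hg : ∀ i ∈ s, g i = 1) :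
    g ∈ K := by
  have h1 : ∀ t : Finset I, (fun i => if i ∈ t then g i else 1) ∈ K := by
    intro t
    induction t using Finset.induction_on with
    | empty => exact K.one_mem
    | insert a t ha ih =>
      have h2 : Pi.mulSingle a (g a) ∈ K := by
        by_cases has : a ∈ s
        · simp [hg a has, K.one_mem]
        · exact h a has _
      convert K.mul_mem h2 ih using 1
      ext i
      by_cases hi : i = a
      · subst hi
        simp [ha]
      · simp [hi]
  refine hK.mem_of_tendsto (b := atTop) (f := fun (t : Finset I) i => if i ∈ t then g i else 1)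
    ?_ (Eventually.of_forall h1)
  rw [tendsto_pi_nhds]
  intro i
  refine tendsto_const_nhds.congr' ?_
  filter_upwards [eventually_ge_atTop {i}] with t ht
  rw [if_pos (ht (Finset.mem_singleton_self i))]

variable (H) in
/-- Restriction to finitely many coordinates. -/
def res (s : Finset I) : (∀ i, H i) →* ∀ i : s, H i :=
  MonoidHom.pi (fun i => Pi.evalMonoidHom H i)

variable (H) in
/-- Extension by the identity. -/
def ext (s : Finset I) : (∀ i : s, H i) →* ∀ i, H i where
  toFun x i := if h : i ∈ s then x ⟨i, h⟩ else 1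
  map_one' := by
    ext i
    simp
  map_mul' x y := by
    ext i
    by_cases h : i ∈ s <;> simp [h]

omit [∀ i, TopologicalSpace (H i)] in
lemma res_ext (s : Finset I) (x : ∀ i : s, H i) : res H s (ext H s x) = x := by
  ext i
  simp [res, ext]

lemma factor {n : ℕ} (s : Finset I) (ρ : IrrRep (∀ i, H i) n)
    (h : ∀ i ∉ s, ∀ (x : H i) v, ρ.1 (Pi.mulSingle i x) v = v) (g : ∀ i, H i) :
    ρ.1 (ext H s (res H s g)) = ρ.1 g := by
  have h1 : g⁻¹ * ext H s (res H s g) ∈ MonoidHom.ker ρ.1 := by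
    refine tail_mem _ ?_ s (fun i hi x => LinearMap.ext (h i hi x)) _ (fun i hi => ?_)
    · have : (MonoidHom.ker ρ.1 : Set (∀ i, H i)) = ⋂ v, {g | ρ.1 g v = v} := by
        ext g
        simp [LinearMap.ext_iff]
      rw [this]
      exact isClosed_iInter (fun v => isClosed_eq (ρ.2.2 v) continuous_const)
    · simp [res, ext, hi]
  rw [← mul_inv_cancel_left g (ext H s (res H s g)), map_mul, MonoidHom.mem_ker.1 h1, mul_one]

variable [∀ i, DiscreteTopology (H i)] [∀ i, Finite (H i)]

lemma card_irrClass {n : ℕ} (s : Finset I)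
    (h : ∀ i ∉ s, ∀ (ρ : Representation ℂ (H i) (Fin n → ℂ)) x v, ρ x v = v) :
    Finite (IrrClass (∀ i, H i) n) ∧
      Nat.card (IrrClass (∀ i, H i) n) = irrCount (∀ i : s, H i) n := by
  have := Fintype.ofFinite (∀ i : s, H i)
  have hs : Function.Surjective (res H s) := fun x => ⟨_, res_ext s x⟩
  have hf : ∀ (ρ : IrrRep (∀ i, H i) n) g, ρ.1 (ext H s (res H s g)) = ρ.1 g := fun ρ =>
    factor s ρ (fun i hi x v => h i hi (ρ.1.comp (MonoidHom.mulSingle H i)) x v)
  have hirr : ∀ ρ : IrrRep (∀ i, H i) n,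
      Representation.IsIrreducible (ρ.1.comp (ext H s) : Representation ℂ _ _) := by
    intro ρ
    rw [← irreducible_comp_iff (res H s) hs]
    convert ρ.2.1 using 1
    ext1 g
    exact hf ρ g
  let Φ : IrrClass (∀ i, H i) n → {χ ∈ IrrChar (∀ i : s, H i) | χ 1 = n} :=
    Quot.lift (fun ρ => ⟨Representation.character (ρ.1.comp (ext H s)),
      ⟨_, _, _, inferInstance, _, hirr ρ, rfl⟩, by simp⟩) (by
        rintro ρ σ ⟨e⟩
        ext x
        exact congrFun (char_iso e) (ext H s x))
  have hΦ : Function.Bijective Φ := by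
    constructor
    · rintro ⟨ρ⟩ ⟨σ⟩ hρσ
      obtain ⟨e⟩ := equiv_of_char_eq (hirr ρ) (hirr σ) (congrArg Subtype.val hρσ)
      refine Quot.sound ⟨Representation.Equiv.mk e.toLinearEquiv (fun g => ?_)⟩
      rw [← hf ρ g, ← hf σ g]
      exact e.isIntertwining' (res H s g)
    · rintro ⟨_, ⟨V, _, _, _, τ, hτ, rfl⟩, h1⟩
      rw [char_one, Nat.cast_inj] at h1
      let e : V ≃ₗ[ℂ] (Fin n → ℂ) := LinearEquiv.ofFinrankEq _ _ (by simpa using h1)
      let τ' : Representation ℂ (∀ i : s, H i) (Fin n → ℂ) :=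
        (e.conjRingEquiv : Module.End ℂ V →* Module.End ℂ (Fin n → ℂ)).comp τ
      have he : ∀ g v, e (τ g v) = τ' g (e v) := fun g v => by simp [τ']
      refine ⟨Quot.mk _ ⟨τ'.comp (res H s), (irreducible_comp_iff _ hs _).2
        (irreducible_of_equiv e he hτ), fun v => ?_⟩, Subtype.ext ?_⟩
      · exact (continuous_of_discreteTopology (f := fun x => τ' x v)).comp
          (continuous_pi (fun i => continuous_apply _))
      · have h2 := char_iso (Representation.Equiv.mk (ρ := τ) (σ := τ') e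
          (fun g => LinearMap.ext (he g)))
        ext x
        change τ'.character (res H s (ext H s x)) = _
        rw [res_ext, ← h2]
  have hfin : Finite {χ ∈ IrrChar (∀ i : s, H i) | χ 1 = n} :=
    irrChar_finite.subset (Set.sep_subset _ _)
  exact ⟨Finite.of_injective Φ hΦ.1, by
    rw [Nat.card_eq_of_bijective Φ hΦ, irrCount, Nat.card_coe_set_eq]⟩

omit [∀ i, DiscreteTopology (H i)] in
lemma fab [∀ i, IsTopologicalGroup (H i)] (h : ∀ i, commutator (H i) = ⊤)
    (U : Subgroup (∀ i, H i)) (hU : IsOpen (U : Set (∀ i, H i))) :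
    Finite (TopologicalAbelianization U) := by
  obtain ⟨s, u, hu, hsu⟩ := isOpen_pi_iff.1 hU 1 U.one_mem'
  have h1 : ∀ g : ∀ i, H i, (∀ i ∈ s, g i = 1) → g ∈ U := fun g hg =>
    hsu (fun i hi => by rw [hg i hi]; exact (hu i hi).2)
  have h2 : ∀ g : ∀ i, H i, (∀ i ∈ s, g i = 1) →
      g ∈ (commutator U).topologicalClosure.map U.subtype := by
    refine tail_mem _ ?_ s (fun i hi x => ?_)
    · exact (IsClosed.isClosedEmbedding_subtypeVal (U.isClosed_of_isOpen hU)).isClosedMap _
        (Subgroup.isClosed_topologicalClosure (commutator U))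
    · let φ : H i →* U := (MonoidHom.mulSingle H i).codRestrict U
        (fun x => h1 _ (fun j hj => Pi.mulSingle_eq_of_ne (ne_of_mem_of_not_mem hj hi) x))
      refine ⟨φ x, Subgroup.le_topologicalClosure _ ?_, rfl⟩
      have h3 : φ x ∈ (commutator (H i)).map φ := ⟨x, by simp [h i], rfl⟩
      rw [map_commutator_eq] at h3
      exact Subgroup.commutator_mono le_top le_top h3
  have h3 : ((res H s).comp U.subtype).ker
      ≤ (commutator U).topologicalClosure := by
    intro g hg
    obtain ⟨k, hk, hkg⟩ := h2 g.1 (fun i hi => congrFun hg ⟨i, hi⟩)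
    rwa [← Subtype.ext hkg]
  have := Subgroup.finiteIndex_of_le h3
  infer_instance

omit [∀ i, DiscreteTopology (H i)] [∀ i, Finite (H i)] in
/-- A subgroup that surjects onto each simple factor and separates the factors is dense. -/
lemma dense_of_separate [∀ i, IsTopologicalGroup (H i)] [∀ i, IsSimpleGroup (H i)]
    (h : ∀ i, commutator (H i) = ⊤) (K : Subgroup (∀ i, H i))
    (h1 : ∀ i, K.map (Pi.evalMonoidHom H i) = ⊤)
    (h2 : ∀ i j, i ≠ j → ∃ k ∈ K, k i ≠ 1 ∧ k j = 1) : K.topologicalClosure = ⊤ := by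
  have h3 : ∀ i j, i ≠ j →
      (K ⊓ (Pi.evalMonoidHom H j).ker).map (Pi.evalMonoidHom H i) = ⊤ := by
    intro i j hij
    have hn : ((K ⊓ (Pi.evalMonoidHom H j).ker).map (Pi.evalMonoidHom H i)).Normal := by
      constructor
      rintro _ ⟨k, ⟨hk, hk'⟩, rfl⟩ x
      obtain ⟨g, hg, rfl⟩ : x ∈ K.map (Pi.evalMonoidHom H i) := by simp [h1 i]
      exact ⟨g * k * g⁻¹, ⟨K.mul_mem (K.mul_mem hg hk) (K.inv_mem hg),
        (MonoidHom.normal_ker _).conj_mem k hk' g⟩, by simp⟩
    refine hn.eq_bot_or_eq_top.resolve_left (fun h0 => ?_)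
    obtain ⟨k, hk, hki, hkj⟩ := h2 i j hij
    exact hki (Subgroup.mem_bot.1 (h0 ▸ Subgroup.mem_map_of_mem (Pi.evalMonoidHom H i)
      (show k ∈ K ⊓ (Pi.evalMonoidHom H j).ker from ⟨hk, hkj⟩)))
  have h4 : ∀ i (t : Finset I), i ∉ t →
      (K ⊓ ⨅ j ∈ t, (Pi.evalMonoidHom H j).ker).map (Pi.evalMonoidHom H i) = ⊤ := by
    intro i t
    induction t using Finset.induction_on with
    | empty => simpa using h1 i
    | insert a t ha ih =>
      intro hi
      rw [Finset.mem_insert, not_or] at hi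
      have h5 := h i
      rw [commutator_def] at h5
      rw [eq_top_iff, ← h5]
      conv_lhs =>
        congr
        · rw [← h3 i a hi.1]
        · rw [← ih hi.2]
      rw [← Subgroup.map_commutator]
      refine Subgroup.map_mono (Subgroup.commutator_le.2 (fun x hx y hy => ?_))
      simp only [Subgroup.mem_inf, Subgroup.mem_iInf, MonoidHom.mem_ker, Finset.mem_insert,
        forall_eq_or_imp, commutatorElement_def, map_mul, map_inv] at hx hy ⊢
      refine ⟨K.mul_mem (K.mul_mem (K.mul_mem hx.1 hy.1) (K.inv_mem hx.1)) (K.inv_mem hy.1),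
        by simp [hx.2], fun j hj => by simp [hy.2 j hj]⟩
  rw [eq_top_iff]
  intro g _
  refine tail_mem _ K.isClosed_topologicalClosure ∅ (fun i _ x => ?_) g (by simp)
  have h5 : ∀ t : Finset I, ∃ k ∈ K, ∀ j ∈ t, k j = Pi.mulSingle (M := H) i x j := by
    intro t
    obtain ⟨k, hk, rfl⟩ : x ∈ (K ⊓ ⨅ j ∈ t.erase i, (Pi.evalMonoidHom H j).ker).map
        (Pi.evalMonoidHom H i) := by
      rw [h4 i (t.erase i) (by simp)]
      trivial
    simp only [Subgroup.coe_inf, Set.mem_inter_iff, SetLike.mem_coe, Subgroup.mem_iInf,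
      MonoidHom.mem_ker] at hk
    refine ⟨k, hk.1, fun j hj => ?_⟩
    by_cases hji : j = i
    · subst hji
      simp
    · rw [Pi.mulSingle_eq_of_ne hji]
      exact hk.2 j (Finset.mem_erase.2 ⟨hji, hj⟩)
  choose k hk hk' using h5
  refine mem_closure_of_tendsto (b := atTop) (f := k) ?_ (Eventually.of_forall hk)
  rw [tendsto_pi_nhds]
  intro j
  refine tendsto_const_nhds.congr' ?_
  filter_upwards [eventually_ge_atTop {j}] with t ht
  exact (hk' t j (ht (Finset.mem_singleton_self j))).symm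

lemma exists_equiv_of_ker {K S T : Type} [Group K] [Group S] [Group T] [IsSimpleGroup S]
    [Nontrivial T] {p : K →* S} {q : K →* T} (hp : Function.Surjective p)
    (hq : Function.Surjective q) (h : p.ker ≤ q.ker) :
    ∃ φ : S →* T, Function.Bijective φ ∧ ∀ k, φ (p k) = q k := by
  let φ := MonoidHom.liftOfSurjective p hp ⟨q, h⟩
  have hφ : ∀ k, φ (p k) = q k := fun k => MonoidHom.liftOfRightInverse_comp_apply ..
  refine ⟨φ, ⟨?_, fun y => ?_⟩, hφ⟩
  · rw [← MonoidHom.ker_eq_bot_iff]
    refine φ.normal_ker.eq_bot_or_eq_top.resolve_right (fun h0 => ?_)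
    obtain ⟨y, hy⟩ := exists_ne (1 : T)
    obtain ⟨k, rfl⟩ := hq y
    exact hy ((hφ k).symm.trans (MonoidHom.mem_ker.1 (h0 ▸ Subgroup.mem_top (p k))))
  · obtain ⟨k, rfl⟩ := hq y
    exact ⟨p k, hφ k⟩

end Pool.Agent.MP_810665_al
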